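import Pool.Agent.Lib.MP_354fda_al.Lower

/-!
# The sets of `𝒞(G)` for the crown graph
-/

set_option autoImplicit false

namespace Pool.Agent.Lib.MP_354fda_al

section general

variable {V : Type*}

/-- A member of `𝒞(G)` satisfies `IsCut`. -/
theorem isCut_of_mem_cutSets [Finite V] {G : SimpleGraph V} {T : Set V} (hT : T ∈ cutSets G) :
    IsCut G T := by
  classical
  rcases hT with rfl | hT
  · exact fun w hw => absurd hw (Set.notMem_empty w)
  intro w hw
  by_contra hcon
  push Not at hcon
  have hlt := hT w hw
  apply absurd hlt
  push Not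
  -- the label function
  let L : V → Option (G.induce Tᶜ).ConnectedComponent := fun z =>
    if z = w then (if h : ∃ u, u ∉ T ∧ G.Adj w u then comp G T h.choose else none)
    else comp G T z
  have hLw : ∀ v, v ∉ T → G.Adj w v → L w = comp G T v := by
    intro v hv hwv
    have hex : ∃ u, u ∉ T ∧ G.Adj w u := ⟨v, hv, hwv⟩
    simp only [L, if_true]
    rw [dif_pos hex]
    exact hcon _ _ hex.choose_spec.1 hv hex.choose_spec.2 hwv
  have hLn : ∀ v, v ≠ w → L v = comp G T v := by
    intro v hv
    simp only [L, if_neg hv]
  have hL : ∀ u v, u ∉ T \ {w} → v ∉ T \ {w} → G.Adj u v → L u = L v := by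
    intro u v hu hv huv
    have hmem : ∀ z, z ∉ T \ {w} → z ≠ w → z ∉ T := fun z hz hzw hzT => hz ⟨hzT, hzw⟩
    by_cases huw : u = w
    · subst huw
      have hvu : v ≠ u := huv.ne'
      rw [hLn v hvu]
      exact hLw v (hmem v hv hvu) huv
    · by_cases hvw : v = w
      · subst hvw
        rw [hLn u huw]
        exact (hLw u (hmem u hu huw) huv.symm).symm
      · rw [hLn u huw, hLn v hvw]
        exact comp_adj (hmem u hu huw) (hmem v hv hvw) huv
  have hsub : (Tᶜ : Set V) ≤ (T \ {w})ᶜ := by
    intro z hz hz'
    exact hz hz'.1
  unfold numComp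
  refine Nat.card_le_card_of_injective
    (SimpleGraph.ConnectedComponent.map (SimpleGraph.induceHomOfLE G hsub).toHom) ?_
  intro c1 c2 h12
  induction c1 using SimpleGraph.ConnectedComponent.ind with
  | _ a =>
  induction c2 using SimpleGraph.ConnectedComponent.ind with
  | _ b =>
  obtain ⟨a, ha⟩ := a
  obtain ⟨b, hb⟩ := b
  have ha' : a ∉ T \ {w} := hsub ha
  have hb' : b ∉ T \ {w} := hsub hb
  have hcomp : comp G (T \ {w}) a = comp G (T \ {w}) b := by
    unfold comp
    rw [dif_pos (show a ∈ (T \ {w})ᶜ from ha'), dif_pos (show b ∈ (T \ {w})ᶜ from hb')]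
    congr 1
  have h1 := comp_label L hL ha' hb' hcomp
  have haw : a ≠ w := by rintro rfl; exact ha hw
  have hbw : b ≠ w := by rintro rfl; exact hb hw
  rw [hLn a haw, hLn b hbw] at h1
  unfold comp at h1
  rw [dif_pos ha, dif_pos hb] at h1
  exact Option.some_injective _ h1

end general

section crown

variable {n : ℕ}

/-- The classification of the cut sets of the crown graph. -/
theorem classify {T : Set (Fin n × Bool)} (hT : IsCut (crown n) T) :
    T = ∅ ∨ (∃ t, T = side n t) ∨ (∃ t i, T = sideMinus t i) ∨
      (∃ i j, i ≠ j ∧ T = pairCut i j) := by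
  by_cases hemp : T = ∅
  · exact Or.inl hemp
  right
  obtain ⟨⟨k, t⟩, hw⟩ := Set.nonempty_iff_ne_empty.mpr hemp
  have hb : ∀ a b : Bool, a ≠ b → b = !a := by decide
  have hb2 : ∀ a b : Bool, a ≠ !b → a = b := by decide
  have htt : t ≠ !t := by cases t <;> simp
  obtain ⟨⟨i, t1⟩, ⟨j, t2⟩, hu, hv, hwu, hwv, hne⟩ := hT _ hw
  have ht1 : t1 = !t := hb t t1 hwu.2
  have ht2 : t2 = !t := hb t t2 hwv.2
  subst ht1
  subst ht2
  have hij : i ≠ j := by
    rintro rfl
    exact hne rfl
  -- the vertices outside `T` on the side `t`
  have hU : ∀ l, ((l, t) : Fin n × Bool) ∉ T → l = i ∨ l = j := by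
    intro l hl
    by_contra hcon
    push Not at hcon
    apply hne
    have h1 : (crown n).Adj (l, t) (i, !t) := ⟨hcon.1, htt⟩
    have h2 : (crown n).Adj (l, t) (j, !t) := ⟨hcon.2, htt⟩
    exact (comp_adj hl hu h1).symm.trans (comp_adj hl hv h2)
  -- a vertex of `T` on the side `!t`
  have hW : ∀ l, ((l, !t) : Fin n × Bool) ∈ T → ((i, t) : Fin n × Bool) ∉ T ∧
      ((j, t) : Fin n × Bool) ∉ T := by
    intro l hl
    obtain ⟨⟨i', t1⟩, ⟨j', t2⟩, hu', hv', hwu', hwv', hne'⟩ := hT _ hl
    have ht1 : t1 = t := hb2 t1 t hwu'.2.symm
    have ht2 : t2 = t := hb2 t2 t hwv'.2.symm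
    subst ht1
    subst ht2
    have hij' : i' ≠ j' := by
      rintro rfl
      exact hne' rfl
    rcases hU i' hu' with rfl | rfl
    · rcases hU j' hv' with rfl | rfl
      · exact absurd rfl hij'
      · exact ⟨hu', hv'⟩
    · rcases hU j' hv' with rfl | rfl
      · exact ⟨hv', hu'⟩
      · exact absurd rfl hij'
  by_cases hi : ((i, t) : Fin n × Bool) ∈ T
  · have hopp : ∀ l, ((l, !t) : Fin n × Bool) ∉ T := fun l hl => (hW l hl).1 hi
    by_cases hj : ((j, t) : Fin n × Bool) ∈ T
    · left
      refine ⟨t, ?_⟩
      ext ⟨l, s⟩
      constructor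
      · intro h
        by_contra hs
        have : s = !t := hb t s (fun h' => hs h'.symm)
        subst this
        exact hopp l h
      · intro h
        have : s = t := h
        subst this
        by_contra hl
        rcases hU l hl with rfl | rfl
        · exact hl hi
        · exact hl hj
    · right; left
      refine ⟨t, j, ?_⟩
      ext ⟨l, s⟩
      constructor
      · intro h
        refine ⟨?_, ?_⟩
        · by_contra hs
          have : s = !t := hb t s (fun h' => hs h'.symm)
          subst this
          exact hopp l h
        · rintro h'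
          simp only at h'
          subst h'
          by_cases hs : s = t
          · subst hs; exact hj h
          · have : s = !t := hb t s (fun h' => hs h'.symm)
            subst this
            exact hopp l h
      · rintro ⟨h1, h2⟩
        simp only at h1 h2
        subst h1
        by_contra hl
        rcases hU l hl with rfl | rfl
        · exact hl hi
        · exact h2 rfl
  · by_cases hj : ((j, t) : Fin n × Bool) ∈ T
    · have hopp : ∀ l, ((l, !t) : Fin n × Bool) ∉ T := fun l hl => (hW l hl).2 hj
      right; left
      refine ⟨t, i, ?_⟩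
      ext ⟨l, s⟩
      constructor
      · intro h
        refine ⟨?_, ?_⟩
        · by_contra hs
          have : s = !t := hb t s (fun h' => hs h'.symm)
          subst this
          exact hopp l h
        · rintro h'
          simp only at h'
          subst h'
          by_cases hs : s = t
          · subst hs; exact hi h
          · have : s = !t := hb t s (fun h' => hs h'.symm)
            subst this
            exact hopp l h
      · rintro ⟨h1, h2⟩
        simp only at h1 h2
        subst h1
        by_contra hl
        rcases hU l hl with rfl | rfl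
        · exact h2 rfl
        · exact hl hj
    · right; right
      refine ⟨i, j, hij, ?_⟩
      ext ⟨l, s⟩
      constructor
      · intro h
        by_cases hs : s = t
        · subst hs
          refine ⟨?_, ?_⟩
          · rintro rfl; exact hi h
          · rintro rfl; exact hj h
        · have : s = !t := hb t s (fun h' => hs h'.symm)
          subst this
          refine ⟨?_, ?_⟩
          · rintro rfl; exact hu h
          · rintro rfl; exact hv h
      · rintro ⟨h1, h2⟩
        simp only at h1 h2
        by_contra hl
        by_cases hs : s = t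
        · subst hs
          rcases hU l hl with rfl | rfl
          · exact h1 rfl
          · exact h2 rfl
        · have : s = !t := hb t s (fun h' => hs h'.symm)
          subst this
          apply hne
          have a1 : (crown n).Adj (i, !t) (j, t) := ⟨hij, htt.symm⟩
          have a2 : (crown n).Adj (j, t) (l, !t) := ⟨Ne.symm h2, htt⟩
          have a3 : (crown n).Adj (l, !t) (i, t) := ⟨h1, htt.symm⟩
          have a4 : (crown n).Adj (i, t) (j, !t) := ⟨hij, htt⟩
          exact (((comp_adj hu hj a1).trans (comp_adj hj hl a2)).trans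
            (comp_adj hl hi a3)).trans (comp_adj hi hv a4)

end crown

end Pool.Agent.Lib.MP_354fda_al
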