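import Mathlib

/-!
# Binomial edge ideals, the primes `P_T(G)` and the crown graph: definitions
-/

set_option autoImplicit false

namespace Pool.Agent.Lib.MP_354fda_al

open MvPolynomial

/-- The crown graph `C_{n,n}`. The vertex `(i, false)` is the vertex `2i-1` of `X` and the vertex
`(i, true)` is the vertex `2i` of `Y`; two vertices are adjacent exactly when they lie on different
sides and have different indices. -/
def crown (n : ℕ) : SimpleGraph (Fin n × Bool) where
  Adj u v := u.1 ≠ v.1 ∧ u.2 ≠ v.2
  symm := ⟨fun _ _ h => ⟨h.1.symm, h.2.symm⟩⟩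
  loopless := ⟨fun _ h => h.1 rfl⟩

section

variable (K : Type*) [Field K] {V : Type*}

/-- The binomial `x_u y_v - x_v y_u`, where `x_v = X (v, 0)` and `y_v = X (v, 1)`. -/
noncomputable def minor (u v : V) : MvPolynomial (V × Fin 2) K :=
  X (u, 0) * X (v, 1) - X (v, 0) * X (u, 1)

/-- The binomial edge ideal `J_G`. -/
noncomputable def binomialEdgeIdeal (G : SimpleGraph V) : Ideal (MvPolynomial (V × Fin 2) K) :=
  Ideal.span {g | ∃ u v : V, G.Adj u v ∧ g = minor K u v}

/-- The ideal `P_T(G)`: it is generated by `x_v, y_v` for `v ∈ T` and by the binomials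
`x_u y_v - x_v y_u` for `u, v` in the same connected component of the graph induced by `G` on the
complement of `T`. -/
noncomputable def primeOf (G : SimpleGraph V) (T : Set V) :
    Ideal (MvPolynomial (V × Fin 2) K) :=
  Ideal.span ({g | ∃ v ∈ T, ∃ j : Fin 2, g = X (v, j)} ∪
    {g | ∃ u v : (Tᶜ : Set V), (G.induce Tᶜ).Reachable u v ∧ g = minor K (u : V) (v : V)})

end

section

variable {V : Type*}

/-- The number `c(T)` of connected components of the graph induced on the complement of `T`. -/
noncomputable def numComp (G : SimpleGraph V) (T : Set V) : ℕ :=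
  Nat.card (G.induce Tᶜ).ConnectedComponent

/-- The set `𝒞(G)` of all `T` such that `T = ∅` or `c(T \ {i}) < c(T)` for every `i ∈ T`. -/
def cutSets (G : SimpleGraph V) : Set (Set V) :=
  {T | T = ∅ ∨ ∀ i ∈ T, numComp G (T \ {i}) < numComp G T}

end

/-- The set of all degrees `d` such that `I : f = p` for some homogeneous `f` of degree `d`. The
local `v`-number `v_p(I)` is the least element of this set. -/
def colonDegrees {K : Type*} [Field K] {σ : Type*} (I p : Ideal (MvPolynomial σ K)) : Set ℕ :=
  {d | ∃ f : MvPolynomial σ K, f.IsHomogeneous d ∧ Submodule.colon I {f} = p}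

end Pool.Agent.Lib.MP_354fda_al
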