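import Pool.Agent.Lib.MP_354fda_al.Prime

/-!
# The grading by vertices, restriction to a set of vertices, evaluations
-/

set_option autoImplicit false

namespace Pool.Agent.Lib.MP_354fda_al

open MvPolynomial

variable {K : Type*} [Field K] {V : Type*}

/-- The weight of a variable is its vertex. -/
noncomputable def wt (p : V × Fin 2) : V →₀ ℕ := Finsupp.single p.1 1

theorem isW_X (v : V) (j : Fin 2) :
    IsWeightedHomogeneous wt (X (v, j) : MvPolynomial (V × Fin 2) K) (Finsupp.single v 1) :=
  isWeightedHomogeneous_X K wt (v, j)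

theorem isW_minor (u v : V) :
    IsWeightedHomogeneous wt (minor K u v) (Finsupp.single u 1 + Finsupp.single v 1) := by
  unfold minor
  refine IsWeightedHomogeneous.sub ((isW_X u 0).mul (isW_X v 1)) ?_
  rw [add_comm]
  exact (isW_X v 0).mul (isW_X u 1)

section
attribute [local instance] MvPolynomial.weightedGradedAlgebra

theorem span_homog [DecidableEq V] {s : Set (MvPolynomial (V × Fin 2) K)}
    (hs : ∀ g ∈ s, ∃ α, IsWeightedHomogeneous wt g α) {f : MvPolynomial (V × Fin 2) K} :
    f ∈ Ideal.span s ↔ ∀ α : V →₀ ℕ, weightedHomogeneousComponent wt α f ∈ Ideal.span s := by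
  refine mem_iff_weightedHomogeneousComponent_mem K wt ?_ f
  refine Ideal.homogeneous_span _ _ ?_
  intro g hg
  obtain ⟨α, hα⟩ := hs g hg
  exact ⟨α, hα⟩

end

theorem mem_J_iff [DecidableEq V] (G : SimpleGraph V) {f : MvPolynomial (V × Fin 2) K} :
    f ∈ binomialEdgeIdeal K G ↔
      ∀ α : V →₀ ℕ, weightedHomogeneousComponent wt α f ∈ binomialEdgeIdeal K G := by
  refine span_homog ?_
  rintro g ⟨u, v, _, rfl⟩
  exact ⟨_, isW_minor u v⟩

theorem mem_P_iff [DecidableEq V] (G : SimpleGraph V) (T : Set V)
    {f : MvPolynomial (V × Fin 2) K} :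
    f ∈ primeOf K G T ↔
      ∀ α : V →₀ ℕ, weightedHomogeneousComponent wt α f ∈ primeOf K G T := by
  refine span_homog ?_
  rintro g (⟨v, _, j, rfl⟩ | ⟨u, v, _, rfl⟩)
  · exact ⟨_, isW_X v j⟩
  · exact ⟨_, isW_minor _ _⟩

/-- If all weighted homogeneous components of small degree are in `J_G`, so is `f`. -/
theorem weight_wt (m : V × Fin 2 →₀ ℕ) : Finsupp.weight wt m = m.mapDomain Prod.fst := by
  induction m using Finsupp.induction_linear with
  | zero => simp
  | add f g hf hg => rw [map_add, Finsupp.mapDomain_add, hf, hg]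
  | single p k =>
    rw [Finsupp.weight_single, Finsupp.mapDomain_single, wt, Finsupp.smul_single]
    simp

theorem degree_mapDomain {α β : Type*} (f : α → β) (m : α →₀ ℕ) :
    Finsupp.degree (m.mapDomain f) = Finsupp.degree m := by
  induction m using Finsupp.induction_linear with
  | zero => simp
  | add f g hf hg => rw [map_add, Finsupp.mapDomain_add, map_add, hf, hg]
  | single p k => rw [Finsupp.mapDomain_single, Finsupp.degree_single, Finsupp.degree_single]

/-- A weighted homogeneous component of a homogeneous polynomial of degree `d` vanishes unless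
the weight has degree `d`. -/
theorem component_eq_zero {f : MvPolynomial (V × Fin 2) K} {d : ℕ} (hf : f.IsHomogeneous d)
    {α : V →₀ ℕ} (hα : Finsupp.degree α ≠ d) : weightedHomogeneousComponent wt α f = 0 := by
  apply weightedHomogeneousComponent_eq_zero'
  intro m hm h
  apply hα
  rw [← h, weight_wt, degree_mapDomain]
  have := hf (mem_support_iff.mp hm)
  rw [← this, Finsupp.degree_eq_weight_one]
  rfl

open Classical in
/-- The ring map that kills all variables of vertices outside `S`. -/
noncomputable def restr (S : Set V) :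
    MvPolynomial (V × Fin 2) K →ₐ[K] MvPolynomial (V × Fin 2) K :=
  aeval (fun p => if p.1 ∈ S then X p else 0)

theorem restr_X_mem {S : Set V} {v : V} (hv : v ∈ S) (j : Fin 2) :
    restr S (X (v, j) : MvPolynomial (V × Fin 2) K) = X (v, j) := by
  unfold restr
  rw [aeval_X, if_pos hv]

theorem restr_X_notMem {S : Set V} {v : V} (hv : v ∉ S) (j : Fin 2) :
    restr S (X (v, j) : MvPolynomial (V × Fin 2) K) = 0 := by
  unfold restr
  rw [aeval_X, if_neg hv]

theorem restr_minor_mem {S : Set V} {u v : V} (hu : u ∈ S) (hv : v ∈ S) :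
    restr S (minor K u v) = minor K u v := by
  unfold minor
  rw [map_sub, map_mul, map_mul]
  simp only [restr_X_mem hu, restr_X_mem hv]

theorem restr_minor_left {S : Set V} {u v : V} (hu : u ∉ S) :
    restr S (minor K u v) = 0 := by
  unfold minor
  rw [map_sub, map_mul, map_mul]
  simp only [restr_X_notMem hu, zero_mul, mul_zero, sub_zero]

theorem restr_minor_right {S : Set V} {u v : V} (hv : v ∉ S) :
    restr S (minor K u v) = 0 := by
  unfold minor
  rw [map_sub, map_mul, map_mul]
  simp only [restr_X_notMem hv, zero_mul, mul_zero, sub_zero]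

theorem restr_J {G : SimpleGraph V} (S : Set V) {f : MvPolynomial (V × Fin 2) K}
    (hf : f ∈ binomialEdgeIdeal K G) : restr S f ∈ binomialEdgeIdeal K G := by
  have : binomialEdgeIdeal K G ≤ (binomialEdgeIdeal K G).comap (restr (K := K) S) := by
    conv_lhs => unfold binomialEdgeIdeal
    rw [Ideal.span_le]
    rintro g ⟨u, v, huv, rfl⟩
    change restr S (minor K u v) ∈ binomialEdgeIdeal K G
    by_cases hu : u ∈ S
    · by_cases hv : v ∈ S
      · rw [restr_minor_mem hu hv]
        exact Ideal.subset_span ⟨u, v, huv, rfl⟩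
      · rw [restr_minor_right hv]; exact zero_mem _
    · rw [restr_minor_left hu]; exact zero_mem _
  exact this hf

/-- Restriction of an element of `P_T`. -/
theorem restr_P {G : SimpleGraph V} {T : Set V} (S : Set V)
    (I : Ideal (MvPolynomial (V × Fin 2) K))
    (h1 : ∀ v ∈ T, v ∈ S → ∀ j : Fin 2, X (v, j) ∈ I)
    (h2 : ∀ u v : V, u ∉ T → v ∉ T → u ∈ S → v ∈ S → comp G T u = comp G T v → minor K u v ∈ I)
    {f : MvPolynomial (V × Fin 2) K} (hf : f ∈ primeOf K G T) : restr S f ∈ I := by
  rw [primeOf_eq] at hf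
  have : Q K T (comp G T) ≤ I.comap (restr (K := K) S) := by
    unfold Q
    rw [Ideal.span_le]
    rintro g (⟨v, hv, j, rfl⟩ | ⟨u, v, hu, hv, huv, rfl⟩)
    · change restr S (X (v, j)) ∈ I
      by_cases hvS : v ∈ S
      · rw [restr_X_mem hvS]; exact h1 v hv hvS j
      · rw [restr_X_notMem hvS]; exact zero_mem _
    · change restr S (minor K u v) ∈ I
      by_cases huS : u ∈ S
      · by_cases hvS : v ∈ S
        · rw [restr_minor_mem huS hvS]
          exact h2 u v hu hv huS hvS huv
        · rw [restr_minor_right hvS]; exact zero_mem _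
      · rw [restr_minor_left huS]; exact zero_mem _
  exact this hf

/-- A weighted homogeneous polynomial is not changed by restriction to a set that contains the
support of its weight. -/
theorem restr_self {S : Set V} {f : MvPolynomial (V × Fin 2) K} {α : V →₀ ℕ}
    (hf : IsWeightedHomogeneous wt f α) (hα : ∀ v, α v ≠ 0 → v ∈ S) : restr S f = f := by
  have key : ∀ p ∈ f.vars, p.1 ∈ S := by
    intro p hp
    obtain ⟨m, hm, hpm⟩ := (mem_vars_iff_mem_support p).mp hp
    apply hα
    rw [← hf (mem_support_iff.mp hm), weight_wt]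
    obtain ⟨m1, rfl⟩ := exists_eq_single_add (Finsupp.mem_support_iff.mp hpm)
    rw [Finsupp.mapDomain_add, Finsupp.mapDomain_single]
    simp
  have h1 : restr S f = aeval X f := by
    unfold restr
    refine eval₂Hom_congr' rfl ?_ rfl
    intro p hp _
    rw [if_pos (key p hp)]
  rw [h1, aeval_X_left_apply]

/-- A weighted homogeneous polynomial is killed by restriction to a set that misses a vertex of
the support of its weight. -/
theorem restr_zero {S : Set V} {f : MvPolynomial (V × Fin 2) K} {α : V →₀ ℕ}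
    (hf : IsWeightedHomogeneous wt f α) {v : V} (hα : α v ≠ 0) (hv : v ∉ S) :
    restr S f = 0 := by
  rw [f.as_sum, map_sum]
  refine Finset.sum_eq_zero ?_
  intro m hm
  have h1 := hf (mem_support_iff.mp hm)
  rw [weight_wt] at h1
  have h2 : (m.mapDomain Prod.fst) v ≠ 0 := by rw [h1]; exact hα
  obtain ⟨p, hp, hpv⟩ := exists_of_mapDomain h2
  obtain ⟨m1, rfl⟩ := exists_eq_single_add hp
  have e : (monomial (Finsupp.single p 1 + m1) (coeff (Finsupp.single p 1 + m1) f) :
      MvPolynomial (V × Fin 2) K) = X p * monomial m1 (coeff (Finsupp.single p 1 + m1) f) := by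
    rw [X, monomial_mul, one_mul]
  obtain ⟨v', j⟩ := p
  simp only at hpv
  subst hpv
  rw [e, map_mul, restr_X_notMem hv, zero_mul]

/-- `g - restr S g` lies in the ideal of the variables outside `S`. -/
theorem sub_restr_mem (S : Set V) (g : MvPolynomial (V × Fin 2) K) :
    g - restr S g ∈ Ideal.span {h : MvPolynomial (V × Fin 2) K | ∃ v ∉ S, ∃ j, h = X (v, j)} := by
  induction g using MvPolynomial.induction_on with
  | C a => rw [← algebraMap_eq, AlgHom.commutes, sub_self]; exact zero_mem _
  | add p q hp hq =>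
    have e : p + q - restr S (p + q) = (p - restr S p) + (q - restr S q) := by
      rw [map_add]; ring
    rw [e]; exact add_mem hp hq
  | mul_X p n hp =>
    have e : p * X n - restr S (p * X n) =
        (p - restr S p) * X n + restr S p * (X n - restr S (X n)) := by
      rw [map_mul]; ring
    rw [e]
    refine add_mem (Ideal.mul_mem_right _ _ hp) (Ideal.mul_mem_left _ _ ?_)
    obtain ⟨v, j⟩ := n
    by_cases hv : v ∈ S
    · rw [restr_X_mem hv, sub_self]; exact zero_mem _
    · rw [restr_X_notMem hv, sub_zero]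
      exact Ideal.subset_span ⟨v, hv, j, rfl⟩

/-- `J_G` is contained in every `P_T(G)`. -/
theorem J_le_P (G : SimpleGraph V) (T : Set V) : binomialEdgeIdeal K G ≤ primeOf K G T := by
  conv_lhs => unfold binomialEdgeIdeal
  rw [Ideal.span_le]
  rintro g ⟨u, v, huv, rfl⟩
  rw [SetLike.mem_coe, primeOf_eq]
  by_cases hu : u ∈ T
  · unfold minor
    exact Ideal.sub_mem _ (Ideal.mul_mem_right _ _ (X_mem_Q hu 0))
      (Ideal.mul_mem_left _ _ (X_mem_Q hu 1))
  by_cases hv : v ∈ T
  · unfold minor
    exact Ideal.sub_mem _ (Ideal.mul_mem_left _ _ (X_mem_Q hv 1))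
      (Ideal.mul_mem_right _ _ (X_mem_Q hv 0))
  rw [← primeOf_eq]
  refine Ideal.subset_span (Or.inr ⟨⟨u, hu⟩, ⟨v, hv⟩, ?_, rfl⟩)
  apply SimpleGraph.Adj.reachable
  exact huv

/-- Vertices of the same component have the same label. -/
theorem comp_label {G : SimpleGraph V} {T : Set V} {β : Type*} (L : V → β)
    (hL : ∀ u v, u ∉ T → v ∉ T → G.Adj u v → L u = L v) {u v : V} (hu : u ∉ T) (hv : v ∉ T)
    (h : comp G T u = comp G T v) : L u = L v := by
  unfold comp at h
  rw [dif_pos (show u ∈ Tᶜ from hu), dif_pos (show v ∈ Tᶜ from hv)] at h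
  have h1 := SimpleGraph.ConnectedComponent.exact (Option.some_injective _ h)
  have key : ∀ (a b : (Tᶜ : Set V)), (G.induce Tᶜ).Reachable a b → L a = L b := by
    intro a b hab
    obtain ⟨p⟩ := hab
    induction p with
    | nil => rfl
    | @cons a b c hadj _ ih => exact (hL a b a.2 b.2 hadj).trans ih
  exact key _ _ h1

theorem comp_adj {G : SimpleGraph V} {T : Set V} {u v : V} (hu : u ∉ T) (hv : v ∉ T)
    (h : G.Adj u v) : comp G T u = comp G T v := by
  unfold comp
  rw [dif_pos (show u ∈ Tᶜ from hu), dif_pos (show v ∈ Tᶜ from hv)]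
  congr 1
  refine SimpleGraph.ConnectedComponent.sound ?_
  apply SimpleGraph.Adj.reachable
  exact h

theorem minor_mem_P {G : SimpleGraph V} {T : Set V} {u v : V} (h : comp G T u = comp G T v) :
    minor K u v ∈ primeOf K G T := by
  rw [primeOf_eq]
  exact minor_mem_Q h

theorem X_mem_P {G : SimpleGraph V} {T : Set V} {v : V} (h : v ∈ T) (j : Fin 2) :
    (X (v, j) : MvPolynomial (V × Fin 2) K) ∈ primeOf K G T :=
  Ideal.subset_span (Or.inl ⟨v, h, j, rfl⟩)

/-- A point at which all generators of `P_T` vanish gives non-membership. -/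
theorem notMem_P_of_eval {G : SimpleGraph V} {T : Set V} (x y : V → K)
    (h1 : ∀ v ∈ T, x v = 0 ∧ y v = 0)
    (h2 : ∀ u v : V, u ∉ T → v ∉ T → comp G T u = comp G T v → x u * y v - x v * y u = 0)
    {f : MvPolynomial (V × Fin 2) K}
    (hf : aeval (fun p : V × Fin 2 => if p.2 = 0 then x p.1 else y p.1) f ≠ (0 : K)) :
    f ∉ primeOf K G T := by
  intro hmem
  apply hf
  rw [primeOf_eq] at hmem
  have : Q K T (comp G T) ≤ RingHom.ker
      (aeval (R := K) (fun p : V × Fin 2 => if p.2 = 0 then x p.1 else y p.1)) := by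
    unfold Q
    rw [Ideal.span_le]
    rintro g (⟨v, hv, j, rfl⟩ | ⟨u, v, hu, hv, huv, rfl⟩)
    · rw [SetLike.mem_coe, RingHom.mem_ker, aeval_X]
      fin_cases j
      · simpa using (h1 v hv).1
      · simpa using (h1 v hv).2
    · rw [SetLike.mem_coe, RingHom.mem_ker]
      unfold minor
      simp only [map_sub, map_mul, aeval_X]
      simpa using h2 u v hu hv huv
  exact this hmem

theorem X_notMem_P {G : SimpleGraph V} {T : Set V} {v : V} (h : v ∉ T) :
    (X (v, 0) : MvPolynomial (V × Fin 2) K) ∉ primeOf K G T := by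
  classical
  refine notMem_P_of_eval (fun u => if u ∈ T then 0 else 1) (fun _ => 0) ?_ ?_ ?_
  · intro u hu; simp [hu]
  · intro u w _ _ _; simp
  · simp [h]

theorem minor_notMem_P {G : SimpleGraph V} {T : Set V} {u v : V} (hu : u ∉ T) (hv : v ∉ T)
    (h : comp G T u ≠ comp G T v) : minor K u v ∉ primeOf K G T := by
  classical
  refine notMem_P_of_eval (fun z => if z ∈ T then 0 else if comp G T z = comp G T u then 1 else 0)
    (fun z => if z ∈ T then 0 else if comp G T z = comp G T u then 0 else 1) ?_ ?_ ?_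
  · intro z hz; simp [hz]
  · intro z w hz hw hzw
    simp [hz, hw, hzw]
  · unfold minor
    simp [hu, hv, Ne.symm h]

/-- Every vertex of `T` is adjacent to two different components of the complement. -/
def IsCut (G : SimpleGraph V) (T : Set V) : Prop :=
  ∀ w ∈ T, ∃ u v, u ∉ T ∧ v ∉ T ∧ G.Adj w u ∧ G.Adj w v ∧ comp G T u ≠ comp G T v

theorem exists_mem_notMem {G : SimpleGraph V} {T T' : Set V} (hT' : IsCut G T') (hne : T ≠ T') :
    ∃ g : MvPolynomial (V × Fin 2) K, g ∈ primeOf K G T ∧ g ∉ primeOf K G T' := by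
  by_cases hsub : T ⊆ T'
  · have : ∃ w ∈ T', w ∉ T := by
      by_contra hcon
      push Not at hcon
      exact hne (Set.Subset.antisymm hsub hcon)
    obtain ⟨w, hw, hwT⟩ := this
    obtain ⟨u, v, hu, hv, hwu, hwv, hc⟩ := hT' w hw
    refine ⟨minor K u v, minor_mem_P ?_, minor_notMem_P hu hv hc⟩
    have huT : u ∉ T := fun h => hu (hsub h)
    have hvT : v ∉ T := fun h => hv (hsub h)
    exact (comp_adj hwT huT hwu).symm.trans (comp_adj hwT hvT hwv)
  · obtain ⟨w, hw, hwT⟩ := Set.not_subset.mp hsub
    exact ⟨X (w, 0), X_mem_P hw 0, X_notMem_P hwT⟩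

/-- If `J_G : f = P_T` then `f` lies in all the other primes of cut sets. -/
theorem mem_of_colon {G : SimpleGraph V} {T T' : Set V} (hT' : IsCut G T') (hne : T ≠ T')
    {f : MvPolynomial (V × Fin 2) K}
    (hf : Submodule.colon (binomialEdgeIdeal K G) {f} = primeOf K G T) :
    f ∈ primeOf K G T' := by
  obtain ⟨g, hg, hg'⟩ := exists_mem_notMem (K := K) hT' hne
  rw [← hf, Submodule.mem_colon_singleton, smul_eq_mul] at hg
  exact ((primeOf_isPrime G T').mem_or_mem (J_le_P G T' hg)).resolve_left hg'

end Pool.Agent.Lib.MP_354fda_al
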