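import Pool.Agent.Lib.MP_354fda_al.Graded

/-!
# The lower bound: no homogeneous `f` of degree at most three has `J : f = P_T`
-/

set_option autoImplicit false

namespace Pool.Agent.Lib.MP_354fda_al

open MvPolynomial

variable {K : Type*} [Field K]

section general

variable {V : Type*}

/-- Restriction argument without a centre. -/
theorem mem_J_of_P {G : SimpleGraph V} {T : Set V} {g : MvPolynomial (V × Fin 2) K}
    {α : V →₀ ℕ} (hg : IsWeightedHomogeneous wt g α) (hT : ∀ v ∈ T, α v = 0)
    (hS : ∀ u v : V, α u ≠ 0 → α v ≠ 0 → comp G T u = comp G T v → u = v ∨ G.Adj u v)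
    (hmem : g ∈ primeOf K G T) : g ∈ binomialEdgeIdeal K G := by
  have h1 := restr_P (K := K) {v | α v ≠ 0} (binomialEdgeIdeal K G)
    (fun v hv hv' _ => absurd (hT v hv) hv')
    (fun u v _ _ huS hvS hc => by
      rcases hS u v huS hvS hc with rfl | hadj
      · have : minor K u u = 0 := by unfold minor; ring
        rw [this]; exact zero_mem _
      · exact Ideal.subset_span ⟨u, v, hadj, rfl⟩) hmem
  rwa [restr_self (S := {v | α v ≠ 0}) hg (fun v hv => hv)] at h1

theorem X_mul_minor_mem {G : SimpleGraph V} {c u v : V} (hu : G.Adj c u) (hv : G.Adj c v)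
    (j : Fin 2) : X (c, j) * minor K u v ∈ binomialEdgeIdeal K G := by
  have e : X (c, j) * minor K u v = X (u, j) * minor K c v - X (v, j) * minor K c u := by
    unfold minor
    fin_cases j
    · change X (c, 0) * (X (u, 0) * X (v, 1) - X (v, 0) * X (u, 1)) =
        X (u, 0) * (X (c, 0) * X (v, 1) - X (v, 0) * X (c, 1)) -
          X (v, 0) * (X (c, 0) * X (u, 1) - X (u, 0) * X (c, 1))
      ring
    · change X (c, 1) * (X (u, 0) * X (v, 1) - X (v, 0) * X (u, 1)) =
        X (u, 1) * (X (c, 0) * X (v, 1) - X (v, 0) * X (c, 1)) -
          X (v, 1) * (X (c, 0) * X (u, 1) - X (u, 0) * X (c, 1))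
      ring
  rw [e]
  exact sub_mem (Ideal.mul_mem_left _ _ (Ideal.subset_span ⟨c, v, hv, rfl⟩))
    (Ideal.mul_mem_left _ _ (Ideal.subset_span ⟨c, u, hu, rfl⟩))

/-- Restriction argument with a centre `c`. -/
theorem mem_J_of_P_centre {G : SimpleGraph V} {T : Set V} {g : MvPolynomial (V × Fin 2) K}
    {α : V →₀ ℕ} (hg : IsWeightedHomogeneous wt g α) (hT : ∀ v ∈ T, α v = 0) {c : V}
    (hc : α c ≠ 0)
    (hS : ∀ u v : V, α u ≠ 0 → α v ≠ 0 → comp G T u = comp G T v →
      u = v ∨ G.Adj u v ∨ (G.Adj c u ∧ G.Adj c v))
    (hmem : g ∈ primeOf K G T) : g ∈ binomialEdgeIdeal K G := by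
  set J := binomialEdgeIdeal K G with hJ
  set I : Ideal (MvPolynomial (V × Fin 2) K) :=
    Ideal.span {h | ∃ u v : V, (G.Adj c u ∧ G.Adj c v) ∧ h = minor K u v} with hI
  have h1 := restr_P (K := K) {v | α v ≠ 0} (J ⊔ I)
    (fun v hv hv' _ => absurd (hT v hv) hv')
    (fun u v _ _ huS hvS hcc => by
      rcases hS u v huS hvS hcc with rfl | hadj | hadj
      · have : minor K u u = 0 := by unfold minor; ring
        rw [this]; exact zero_mem _
      · exact Ideal.mem_sup_left (Ideal.subset_span ⟨u, v, hadj, rfl⟩)
      · exact Ideal.mem_sup_right (Ideal.subset_span ⟨u, v, hadj, rfl⟩)) hmem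
  rw [restr_self (S := {v | α v ≠ 0}) hg (fun v hv => hv)] at h1
  obtain ⟨h, hh, x, hx, rfl⟩ := Submodule.mem_sup.mp h1
  -- the ideal of the variables of `c`
  have hspan : ∀ r : MvPolynomial (V × Fin 2) K, ∀ x : MvPolynomial (V × Fin 2) K,
      (∀ j : Fin 2, X (c, j) * x ∈ J) → (r - restr {c}ᶜ r) * x ∈ J := by
    intro r x hx
    have h2 := sub_restr_mem (K := K) {c}ᶜ r
    generalize r - restr {c}ᶜ r = r' at h2
    induction h2 using Submodule.span_induction with
    | mem y hy =>
      obtain ⟨v, hv, j, rfl⟩ := hy
      have : v = c := by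
        by_contra hne
        exact hv hne
      rw [this]
      exact hx j
    | zero => rw [zero_mul]; exact zero_mem _
    | add y z _ _ hy hz => rw [add_mul]; exact add_mem hy hz
    | smul a y _ hy => rw [smul_eq_mul, mul_assoc]; exact Ideal.mul_mem_left _ _ hy
  have key : ∀ x ∈ I, x - restr {c}ᶜ x ∈ J ∧ ∀ j : Fin 2, X (c, j) * x ∈ J := by
    intro x hx
    induction hx using Submodule.span_induction with
    | mem y hy =>
      obtain ⟨u, v, ⟨hu, hv⟩, rfl⟩ := hy
      refine ⟨?_, fun j => X_mul_minor_mem hu hv j⟩
      rw [restr_minor_mem (show u ∈ ({c}ᶜ : Set V) from hu.ne')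
        (show v ∈ ({c}ᶜ : Set V) from hv.ne'), sub_self]
      exact zero_mem _
    | zero => simp
    | add y z _ _ hy hz =>
      refine ⟨?_, fun j => by rw [mul_add]; exact add_mem (hy.2 j) (hz.2 j)⟩
      have e : y + z - restr {c}ᶜ (y + z) = (y - restr {c}ᶜ y) + (z - restr {c}ᶜ z) := by
        rw [map_add]; ring
      rw [e]
      exact add_mem hy.1 hz.1
    | smul a y _ hy =>
      refine ⟨?_, fun j => ?_⟩
      · have e : a • y - restr {c}ᶜ (a • y) =
            (a - restr {c}ᶜ a) * y + restr {c}ᶜ a * (y - restr {c}ᶜ y) := by
          rw [smul_eq_mul, map_mul]; ring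
        rw [e]
        exact add_mem (hspan a y hy.2) (Ideal.mul_mem_left _ _ hy.1)
      · rw [smul_eq_mul, mul_left_comm]
        exact Ideal.mul_mem_left _ _ (hy.2 j)
  have hz : restr {c}ᶜ (h + x) = 0 :=
    restr_zero hg hc (by simp)
  have e : h + x = (h - restr {c}ᶜ h) + (x - restr {c}ᶜ x) := by
    rw [map_add] at hz
    linear_combination hz
  rw [e]
  exact add_mem (sub_mem hh (restr_J _ hh)) (key x hx).1

theorem minor_homog (u v : V) : (minor K u v).IsHomogeneous 2 := by
  unfold minor
  exact ((isHomogeneous_X K (u, 0)).mul (isHomogeneous_X K (v, 1))).sub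
    ((isHomogeneous_X K (v, 0)).mul (isHomogeneous_X K (u, 1)))

theorem minor_ne_zero {u v : V} (h : u ≠ v) : minor K u v ≠ 0 := by
  classical
  intro h0
  have := congrArg (aeval (R := K) (fun p : V × Fin 2 =>
    if p = (u, 0) ∨ p = (v, 1) then (1 : K) else 0)) h0
  unfold minor at this
  simp [h.symm] at this

/-- Two different binomials have no common multiple of degree three. -/
theorem eq_zero_of_two_spans {u v w : V} (huv : u ≠ v) (huw : u ≠ w) (hvw : v ≠ w)
    {g : MvPolynomial (V × Fin 2) K} (hg : g.IsHomogeneous 3)
    (h1 : g ∈ Ideal.span {minor K u v}) (h2 : g ∈ Ideal.span {minor K w v}) : g = 0 := by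
  classical
  let c : V → V := fun z => if z = v then w else z
  have hQ : Ideal.span {minor K w v} = Q K ∅ c := by
    apply le_antisymm
    · rw [Ideal.span_singleton_le_iff_mem]
      apply minor_mem_Q
      simp [c]
    · unfold Q
      rw [Ideal.span_le]
      rintro x (⟨z, hz, _⟩ | ⟨a, b, _, _, hab, rfl⟩)
      · exact absurd hz (Set.notMem_empty z)
      · rw [SetLike.mem_coe]
        simp only [c] at hab
        by_cases ha : a = v
        · by_cases hb : b = v
          · rw [ha, hb]
            have : minor K v v = 0 := by unfold minor; ring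
            rw [this]; exact zero_mem _
          · rw [if_pos ha, if_neg hb] at hab
            rw [ha, ← hab]
            have : minor K v w = -minor K w v := by unfold minor; ring
            rw [this]
            exact neg_mem (Ideal.mem_span_singleton_self _)
        · by_cases hb : b = v
          · rw [if_neg ha, if_pos hb] at hab
            rw [hb, hab]
            exact Ideal.mem_span_singleton_self _
          · rw [if_neg ha, if_neg hb] at hab
            rw [hab]
            have : minor K b b = 0 := by unfold minor; ring
            rw [this]; exact zero_mem _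
  have hprime : (Ideal.span {minor K w v}).IsPrime := by rw [hQ]; infer_instance
  have hnot : minor K u v ∉ Ideal.span {minor K w v} := by
    intro hmem
    obtain ⟨a, ha⟩ := Ideal.mem_span_singleton'.mp hmem
    have := congrArg (aeval (R := K) (fun p : V × Fin 2 =>
      if p = (u, 0) ∨ p = (v, 1) ∨ p = (w, 1) then (1 : K) else 0)) ha
    unfold minor at this
    simp [huv.symm, huw.symm, hvw] at this
  obtain ⟨a, ha⟩ := Ideal.mem_span_singleton'.mp h1
  have ha' : a ∈ Ideal.span {minor K w v} := by
    rw [← ha] at h2
    exact (hprime.mem_or_mem h2).resolve_right hnot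
  obtain ⟨b, hb⟩ := Ideal.mem_span_singleton'.mp ha'
  by_contra hne
  have hg3 := hg.totalDegree hne
  have hb0 : b ≠ 0 := by
    rintro rfl
    apply hne
    rw [← ha, ← hb]; ring
  have hwv := minor_ne_zero (K := K) hvw.symm
  have huv' := minor_ne_zero (K := K) huv
  rw [← ha, ← hb, totalDegree_mul_of_isDomain (mul_ne_zero hb0 hwv) huv',
    totalDegree_mul_of_isDomain hb0 hwv, (minor_homog w v).totalDegree hwv,
    (minor_homog u v).totalDegree huv'] at hg3
  omega

end general

section crown

variable {n : ℕ}

/-- One side of the crown graph. -/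
def side (n : ℕ) (t : Bool) : Set (Fin n × Bool) := {v | v.2 = t}

/-- One side without the vertex of index `i`. -/
def sideMinus (t : Bool) (i : Fin n) : Set (Fin n × Bool) := {v | v.2 = t ∧ v.1 ≠ i}

/-- All vertices whose index is neither `i` nor `j`. -/
def pairCut (i j : Fin n) : Set (Fin n × Bool) := {v | v.1 ≠ i ∧ v.1 ≠ j}

theorem exists_ne3 (hn : 4 ≤ n) (i j k : Fin n) : ∃ l : Fin n, l ≠ i ∧ l ≠ j ∧ l ≠ k := by
  have h : ({i, j, k} : Finset (Fin n)).card < (Finset.univ : Finset (Fin n)).card := by
    rw [Finset.card_univ, Fintype.card_fin]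
    exact lt_of_le_of_lt Finset.card_le_three hn
  obtain ⟨l, _, hl⟩ := Finset.exists_mem_notMem_of_card_lt_card h
  refine ⟨l, ?_, ?_, ?_⟩ <;> rintro rfl <;> simp at hl

theorem comp_side {t : Bool} {u v : Fin n × Bool} (hu : u ∉ side n t) (hv : v ∉ side n t)
    (h : comp (crown n) (side n t) u = comp (crown n) (side n t) v) : u = v := by
  refine comp_label (fun z => z) ?_ hu hv h
  intro a b ha hb hab
  exfalso
  apply hab.2
  have ha' : a.2 ≠ t := ha
  have hb' : b.2 ≠ t := hb
  revert ha' hb'
  cases a.2 <;> cases b.2 <;> cases t <;> simp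

theorem comp_sideMinus {t : Bool} {i : Fin n} {u v : Fin n × Bool} (hu : u ∉ sideMinus t i)
    (hv : v ∉ sideMinus t i)
    (h : comp (crown n) (sideMinus t i) u = comp (crown n) (sideMinus t i) v) :
    u = (i, !t) ↔ v = (i, !t) := by
  have key : ∀ a b : Fin n × Bool, b ∉ sideMinus t i → (crown n).Adj a b → a ≠ (i, !t) := by
    rintro a b hb hab rfl
    apply hb
    refine ⟨?_, hab.1.symm⟩
    have := hab.2
    revert this
    cases b.2 <;> cases t <;> simp
  have := comp_label (fun z => z = (i, !t)) (G := crown n) (T := sideMinus t i) ?_ hu hv h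
  · exact Eq.to_iff this
  intro a b ha hb hab
  apply propext
  constructor
  · intro h'; exact absurd h' (key a b hb hab)
  · intro h'; exact absurd h' (key b a ha hab.symm)

theorem comp_pairCut {i j : Fin n} (hij : i ≠ j) (s : Bool) {u v : Fin n × Bool}
    (hu : u ∉ pairCut i j) (hv : v ∉ pairCut i j)
    (h : comp (crown n) (pairCut i j) u = comp (crown n) (pairCut i j) v) :
    (u = (i, s) ∨ u = (j, !s)) ↔ (v = (i, s) ∨ v = (j, !s)) := by
  have key : ∀ a b : Fin n × Bool, b ∉ pairCut i j → (crown n).Adj a b →
      (a = (i, s) ∨ a = (j, !s)) → (b = (i, s) ∨ b = (j, !s)) := by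
    rintro a ⟨b1, b2⟩ hb hab ha
    have hb' : b1 = i ∨ b1 = j := by
      by_contra hcon
      push Not at hcon
      exact hb hcon
    have h1 := hab.1
    have h2 := hab.2
    simp only at h1 h2
    rcases ha with rfl | rfl
    · rcases hb' with rfl | rfl
      · exact absurd rfl h1
      · right
        rw [Prod.mk.injEq]
        refine ⟨rfl, ?_⟩
        revert h2
        cases b2 <;> cases s <;> simp
    · rcases hb' with rfl | rfl
      · left
        rw [Prod.mk.injEq]
        refine ⟨rfl, ?_⟩
        revert h2
        cases b2 <;> cases s <;> simp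
      · exact absurd rfl h1
  have := comp_label (fun z => z = (i, s) ∨ z = (j, !s)) (G := crown n) (T := pairCut i j)
    ?_ hu hv h
  · exact Eq.to_iff this
  intro a b ha hb hab
  apply propext
  exact ⟨key a b hb hab, key b a ha hab.symm⟩

theorem isCut_empty : IsCut (crown n) ∅ := fun w hw => absurd hw (Set.notMem_empty w)

theorem isCut_side (hn : 4 ≤ n) (t : Bool) : IsCut (crown n) (side n t) := by
  rintro ⟨k, t'⟩ hw
  have : t' = t := hw
  subst this
  obtain ⟨a, ha, _, _⟩ := exists_ne3 hn k k k
  obtain ⟨b, hb, hba, _⟩ := exists_ne3 hn k a a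
  have hua : ((a, !t') : Fin n × Bool) ∉ side n t' := by
    change ¬ (!t') = t'
    cases t' <;> simp
  have hub : ((b, !t') : Fin n × Bool) ∉ side n t' := by
    change ¬ (!t') = t'
    cases t' <;> simp
  refine ⟨(a, !t'), (b, !t'), hua, hub, ⟨ha.symm, ?_⟩, ⟨hb.symm, ?_⟩, ?_⟩
  · cases t' <;> simp
  · cases t' <;> simp
  · intro h
    have := comp_side hua hub h
    rw [Prod.mk.injEq] at this
    exact hba this.1.symm

theorem isCut_sideMinus (hn : 4 ≤ n) (t : Bool) (i : Fin n) :
    IsCut (crown n) (sideMinus t i) := by
  rintro ⟨k, t'⟩ ⟨ht, hk⟩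
  simp only at ht hk
  subst ht
  obtain ⟨b, hb, hbk, _⟩ := exists_ne3 hn i k k
  have hui : ((i, !t') : Fin n × Bool) ∉ sideMinus t' i := by
    rintro ⟨h, _⟩
    revert h
    cases t' <;> simp
  have hub : ((b, !t') : Fin n × Bool) ∉ sideMinus t' i := by
    rintro ⟨h, _⟩
    revert h
    cases t' <;> simp
  refine ⟨(i, !t'), (b, !t'), hui, hub, ⟨hk, ?_⟩, ⟨hbk.symm, ?_⟩, ?_⟩
  · cases t' <;> simp
  · cases t' <;> simp
  · intro h
    have := (comp_sideMinus hui hub h).mp rfl
    rw [Prod.mk.injEq] at this
    exact hb this.1

theorem isCut_pairCut {i j : Fin n} (hij : i ≠ j) : IsCut (crown n) (pairCut i j) := by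
  rintro ⟨k, t⟩ ⟨hki, hkj⟩
  simp only at hki hkj
  have hui : ((i, !t) : Fin n × Bool) ∉ pairCut i j := fun h => h.1 rfl
  have huj : ((j, !t) : Fin n × Bool) ∉ pairCut i j := fun h => h.2 rfl
  refine ⟨(i, !t), (j, !t), hui, huj, ⟨hki, ?_⟩, ⟨hkj, ?_⟩, ?_⟩
  · cases t <;> simp
  · cases t <;> simp
  · intro h
    have := (comp_pairCut hij (!t) hui huj h).mp (Or.inl rfl)
    rcases this with h' | h'
    · rw [Prod.mk.injEq] at h'
      exact hij h'.1.symm
    · rw [Prod.mk.injEq] at h'
      have := h'.2
      revert this
      cases t <;> simp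

/-- The key step: a weighted homogeneous polynomial of degree at most three that lies in all
`P_{T'}`, `T' ≠ T` a cut set, lies in `J`. -/
theorem mem_J_of_all (hn : 4 ≤ n) (T : Set (Fin n × Bool))
    {g : MvPolynomial ((Fin n × Bool) × Fin 2) K} {α : (Fin n × Bool) →₀ ℕ}
    (hg : IsWeightedHomogeneous wt g α) (hα : Finsupp.degree α ≤ 3)
    (hall : ∀ T' : Set (Fin n × Bool), IsCut (crown n) T' → T ≠ T' → g ∈ primeOf K (crown n) T') :
    g ∈ binomialEdgeIdeal K (crown n) := by
  classical
  have hcard : α.support.card ≤ 3 := by
    refine le_trans ?_ hα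
    rw [Finsupp.degree_apply]
    calc α.support.card = ∑ _v ∈ α.support, 1 := by simp
      _ ≤ ∑ v ∈ α.support, α v := Finset.sum_le_sum (fun v hv => by
          have := Finsupp.mem_support_iff.mp hv
          omega)
  have hbool : ∀ (a b : Bool), a ≠ b → a = !b := by decide
  by_cases hA : ∃ s : Bool, ∀ v : Fin n × Bool, α v ≠ 0 → v.2 = s
  · -- one sided support
    obtain ⟨s, hs⟩ := hA
    by_cases hT : T = side n (!s)
    · -- use `sideMinus`
      have hne : ∀ i : Fin n, T ≠ sideMinus (!s) i := by
        intro i h
        have h1 : ((i, !s) : Fin n × Bool) ∈ T := by rw [hT]; rfl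
        rw [h] at h1
        exact h1.2 rfl
      have hdisj : ∀ (i : Fin n) (v : Fin n × Bool), v ∈ sideMinus (!s) i → α v = 0 := by
        intro i v hv
        by_contra hne
        have h1 := hs v hne
        have h2 := hv.1
        rw [h1] at h2
        revert h2
        cases s <;> simp
      have hnot : ∀ (i : Fin n) (v : Fin n × Bool), α v ≠ 0 → v ∉ sideMinus (!s) i :=
        fun i v hv hv' => hv (hdisj i v hv')
      by_cases h2 : α.support.card ≤ 2
      · -- choose an index
        have hex : ∃ i : Fin n, ∀ u v : Fin n × Bool, α u ≠ 0 → α v ≠ 0 →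
            (u = (i, s) ↔ v = (i, s)) → u = v := by
          by_cases hemp : ∃ v, α v ≠ 0
          · obtain ⟨v0, hv0⟩ := hemp
            have hv0' : v0 = (v0.1, s) := by
              rw [← hs v0 hv0]
            refine ⟨v0.1, ?_⟩
            intro u v hu hv huv
            rw [← hv0'] at huv
            by_cases hu0 : u = v0
            · rw [hu0, huv.mp hu0]
            · have hv0'' : v ≠ v0 := fun h => hu0 (huv.mpr h)
              by_contra hne'
              have hsub : ({u, v, v0} : Finset (Fin n × Bool)) ⊆ α.support := by
                intro z hz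
                simp only [Finset.mem_insert, Finset.mem_singleton] at hz
                rcases hz with rfl | rfl | rfl
                · exact Finsupp.mem_support_iff.mpr hu
                · exact Finsupp.mem_support_iff.mpr hv
                · exact Finsupp.mem_support_iff.mpr hv0
              have h3 : ({u, v, v0} : Finset (Fin n × Bool)).card = 3 := by
                rw [Finset.card_eq_three]
                exact ⟨u, v, v0, hne', hu0, hv0'', rfl⟩
              have := Finset.card_le_card hsub
              omega
          · push Not at hemp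
            refine ⟨⟨0, by omega⟩, ?_⟩
            intro u v hu
            exact absurd (hemp u) hu
        obtain ⟨i, hi⟩ := hex
        refine mem_J_of_P hg (hdisj i) ?_ (hall _ (isCut_sideMinus hn (!s) i) (hne i))
        intro u v hu hv hc
        left
        have := comp_sideMinus (hnot i u hu) (hnot i v hv) hc
        rw [Bool.not_not] at this
        exact hi u v hu hv this
      · -- three vertices on one side
        have h3 : α.support.card = 3 := by omega
        obtain ⟨u, v, w, huv, huw, hvw, hsupp⟩ := Finset.card_eq_three.mp h3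
        have hmem : ∀ z, α z ≠ 0 ↔ (z = u ∨ z = v ∨ z = w) := by
          intro z
          rw [← Finsupp.mem_support_iff, hsupp]
          simp
        have hu := hs u ((hmem u).mpr (Or.inl rfl))
        have hv := hs v ((hmem v).mpr (Or.inr (Or.inl rfl)))
        have hw := hs w ((hmem w).mpr (Or.inr (Or.inr rfl)))
        have hg3 : g.IsHomogeneous 3 := by
          intro m hm
          have h1 := hg hm
          rw [weight_wt] at h1
          have h2 : Finsupp.degree m = Finsupp.degree α := by rw [← h1, degree_mapDomain]
          have h4 : 3 ≤ Finsupp.degree α := by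
            rw [Finsupp.degree_apply, ← h3]
            calc α.support.card = ∑ _v ∈ α.support, 1 := by simp
              _ ≤ ∑ v ∈ α.support, α v := Finset.sum_le_sum (fun v hv => by
                  have := Finsupp.mem_support_iff.mp hv
                  omega)
          have h5 : Finsupp.degree m = 3 := by omega
          rw [← h5, Finsupp.degree_eq_weight_one]
          rfl
        -- the restriction for the index of a vertex `z₀`
        have hres : ∀ z0 z1 z2 : Fin n × Bool, z0.2 = s →
            (∀ z, α z ≠ 0 → z = z0 ∨ z = z1 ∨ z = z2) → z1 ≠ z0 → z2 ≠ z0 →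
            g ∈ Ideal.span {minor K z1 z2} := by
          intro z0 z1 z2 hz0 hz hz1 hz2
          have hz0' : z0 = (z0.1, s) := by rw [← hz0]
          have h1 := restr_P (K := K) {z | α z ≠ 0} (Ideal.span {minor K z1 z2})
            (fun v hv hv' _ => absurd (hdisj z0.1 v hv) hv')
            (fun a b ha' hb' ha hb hc => by
              have hlab := comp_sideMinus ha' hb' hc
              rw [Bool.not_not, ← hz0'] at hlab
              have hzero : ∀ x : Fin n × Bool, minor K x x = 0 := by
                intro x; unfold minor; ring
              have hswap : minor K z2 z1 = -minor K z1 z2 := by unfold minor; ring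
              rcases hz a ha with rfl | rfl | rfl
              · rw [hlab.mp rfl, hzero]; exact zero_mem _
              · rcases hz b hb with rfl | rfl | rfl
                · exact absurd (hlab.mpr rfl) hz1
                · rw [hzero]; exact zero_mem _
                · exact Ideal.mem_span_singleton_self _
              · rcases hz b hb with rfl | rfl | rfl
                · exact absurd (hlab.mpr rfl) hz2
                · rw [hswap]; exact neg_mem (Ideal.mem_span_singleton_self _)
                · rw [hzero]; exact zero_mem _)
            (hall _ (isCut_sideMinus hn (!s) z0.1) (hne z0.1))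
          rwa [restr_self (S := {v | α v ≠ 0}) hg (fun v hv => hv)] at h1
        have e1 : g ∈ Ideal.span {minor K u v} :=
          hres w u v hw (fun z hz => by rcases (hmem z).mp hz with h | h | h <;> simp [h])
            huw hvw
        have e2 : g ∈ Ideal.span {minor K w v} :=
          hres u w v hu (fun z hz => by rcases (hmem z).mp hz with h | h | h <;> simp [h])
            huw.symm huv.symm
        rw [eq_zero_of_two_spans huv huw hvw hg3 e1 e2]
        exact zero_mem _
    · -- use `side`
      have hdisj : ∀ v ∈ side n (!s), α v = 0 := by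
        intro v hv
        by_contra hne
        have h1 := hs v hne
        have h2 : v.2 = !s := hv
        rw [h1] at h2
        revert h2
        cases s <;> simp
      refine mem_J_of_P hg hdisj ?_ (hall _ (isCut_side hn (!s)) hT)
      intro u v hu hv hc
      exact Or.inl (comp_side (fun h => hu (hdisj u h)) (fun h => hv (hdisj v h)) hc)
  · -- both sides occur
    push Not at hA
    -- find the side with one vertex
    have hex : ∃ (s : Bool) (k : Fin n), α (k, !s) ≠ 0 ∧
        (∀ v : Fin n × Bool, α v ≠ 0 → v.2 = !s → v = (k, !s)) ∧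
        (∀ u v w : Fin n × Bool, α u ≠ 0 → α v ≠ 0 → α w ≠ 0 → u.2 = s → v.2 = s → w.2 = s →
          u = v ∨ u = w ∨ v = w) := by
      obtain ⟨v1, hv1, hv1'⟩ := hA true
      obtain ⟨v2, hv2, hv2'⟩ := hA false
      have hv1'' : v1.2 = false := by revert hv1'; cases v1.2 <;> simp
      have hv2'' : v2.2 = true := by revert hv2'; cases v2.2 <;> simp
      have hsum : (α.support.filter (fun v => v.2 = false)).card +
          (α.support.filter (fun v => v.2 = true)).card ≤ 3 := by
        rw [← Finset.card_union_of_disjoint]
        · refine le_trans (Finset.card_le_card ?_) hcard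
          exact Finset.union_subset (Finset.filter_subset _ _) (Finset.filter_subset _ _)
        · rw [Finset.disjoint_left]
          intro z hz hz'
          rw [Finset.mem_filter] at hz hz'
          rw [hz.2] at hz'
          exact absurd hz'.2 (by simp)
      have hpos1 : 0 < (α.support.filter (fun v => v.2 = false)).card :=
        Finset.card_pos.mpr ⟨v1, Finset.mem_filter.mpr ⟨Finsupp.mem_support_iff.mpr hv1, hv1''⟩⟩
      have hpos2 : 0 < (α.support.filter (fun v => v.2 = true)).card :=
        Finset.card_pos.mpr ⟨v2, Finset.mem_filter.mpr ⟨Finsupp.mem_support_iff.mpr hv2, hv2''⟩⟩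
      have gen : ∀ s : Bool, (α.support.filter (fun v => v.2 = !s)).card ≤ 1 →
          (α.support.filter (fun v => v.2 = s)).card ≤ 2 → (∃ v, α v ≠ 0 ∧ v.2 = !s) →
          ∃ k : Fin n, α (k, !s) ≠ 0 ∧
            (∀ v : Fin n × Bool, α v ≠ 0 → v.2 = !s → v = (k, !s)) ∧
            (∀ u v w : Fin n × Bool, α u ≠ 0 → α v ≠ 0 → α w ≠ 0 → u.2 = s → v.2 = s →
              w.2 = s → u = v ∨ u = w ∨ v = w) := by
        rintro s h1 h2 ⟨v, hv, hvs⟩
        refine ⟨v.1, ?_, ?_, ?_⟩
        · rw [← hvs]; exact hv
        · intro z hz hzs
          rw [← hvs]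
          exact Finset.card_le_one.mp h1 z
            (Finset.mem_filter.mpr ⟨Finsupp.mem_support_iff.mpr hz, hzs⟩) v
            (Finset.mem_filter.mpr ⟨Finsupp.mem_support_iff.mpr hv, hvs⟩)
        · intro a b c ha hb hc has hbs hcs
          by_contra hcon
          push Not at hcon
          have hsub : ({a, b, c} : Finset (Fin n × Bool)) ⊆
              α.support.filter (fun v => v.2 = s) := by
            intro z hz
            simp only [Finset.mem_insert, Finset.mem_singleton] at hz
            rcases hz with rfl | rfl | rfl
            · exact Finset.mem_filter.mpr ⟨Finsupp.mem_support_iff.mpr ha, has⟩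
            · exact Finset.mem_filter.mpr ⟨Finsupp.mem_support_iff.mpr hb, hbs⟩
            · exact Finset.mem_filter.mpr ⟨Finsupp.mem_support_iff.mpr hc, hcs⟩
          have h3 : ({a, b, c} : Finset (Fin n × Bool)).card = 3 := by
            rw [Finset.card_eq_three]
            exact ⟨a, b, c, hcon.1, hcon.2.1, hcon.2.2, rfl⟩
          have := Finset.card_le_card hsub
          omega
      by_cases hle : (α.support.filter (fun v => v.2 = false)).card ≤ 1
      · refine ⟨true, gen true hle (by omega) ⟨v1, hv1, hv1''⟩⟩
      · refine ⟨false, gen false (by simp only [Bool.not_false]; omega) (by omega)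
          ⟨v2, hv2, hv2''⟩⟩
    obtain ⟨s, k, hk, huniq, htwo⟩ := hex
    have hss : (!s) ≠ s := by cases s <;> simp
    have hside : ∀ v : Fin n × Bool, α v ≠ 0 → v = (k, !s) ∨ v.2 = s := by
      intro v hv
      by_cases h : v.2 = !s
      · exact Or.inl (huniq v hv h)
      · right
        revert h
        cases v.2 <;> cases s <;> simp
    by_cases hT : T = sideMinus (!s) k
    · by_cases hks : α (k, s) ≠ 0
      · -- use a `pairCut`
        have hj : ∃ j : Fin n, j ≠ k ∧ ∀ v : Fin n × Bool, α v ≠ 0 →
            v = (k, !s) ∨ v = (k, s) ∨ v = (j, s) := by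
          by_cases hex : ∃ v : Fin n × Bool, α v ≠ 0 ∧ v.2 = s ∧ v ≠ (k, s)
          · obtain ⟨v, hv, hvs, hvk⟩ := hex
            refine ⟨v.1, ?_, ?_⟩
            · intro h
              apply hvk
              rw [← h, ← hvs]
            · intro z hz
              rcases hside z hz with h | h
              · exact Or.inl h
              · right
                rcases htwo z (k, s) v hz hks hv h rfl hvs with h' | h' | h'
                · exact Or.inl h'
                · right; rw [h', ← hvs]
                · exact absurd h'.symm hvk
          · push Not at hex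
            obtain ⟨j, hj, _, _⟩ := exists_ne3 hn k k k
            refine ⟨j, hj, ?_⟩
            intro z hz
            rcases hside z hz with h | h
            · exact Or.inl h
            · exact Or.inr (Or.inl (hex z hz h))
        obtain ⟨j, hjk, hall3⟩ := hj
        have hne : T ≠ pairCut k j := by
          obtain ⟨l, hl, hlj, _⟩ := exists_ne3 hn k j j
          intro h
          have h1 : ((l, s) : Fin n × Bool) ∈ T := by rw [h]; exact ⟨hl, hlj⟩
          rw [hT] at h1
          exact hss h1.1.symm
        have hdisj : ∀ v ∈ pairCut k j, α v = 0 := by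
          intro v hv
          by_contra hne'
          rcases hall3 v hne' with rfl | rfl | rfl
          · exact hv.1 rfl
          · exact hv.1 rfl
          · exact hv.2 rfl
        refine mem_J_of_P hg hdisj ?_ (hall _ (isCut_pairCut hjk.symm) hne)
        intro u v hu hv hc
        have hlab := comp_pairCut hjk.symm s (fun h => hu (hdisj u h))
          (fun h => hv (hdisj v h)) hc
        have e1 : ∀ z : Fin n × Bool, α z ≠ 0 → ((z = (k, s) ∨ z = (j, !s)) ↔ z = (k, s)) := by
          intro z hz
          constructor
          · rintro (h | h)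
            · exact h
            · exfalso
              rcases hall3 z hz with h' | h' | h'
              · rw [h, Prod.mk.injEq] at h'; exact hjk h'.1
              · rw [h, Prod.mk.injEq] at h'; exact hjk h'.1
              · rw [h, Prod.mk.injEq] at h'; exact hss h'.2
          · exact Or.inl
        rw [e1 u hu, e1 v hv] at hlab
        rcases hall3 u hu with h | h | h
        · rcases hall3 v hv with h' | h' | h'
          · left; rw [h, h']
          · have := hlab.mpr h'
            rw [h, Prod.mk.injEq] at this
            exact absurd this.2 hss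
          · right
            rw [h, h']
            exact ⟨hjk.symm, hss⟩
        · left; rw [h, hlab.mp h]
        · rcases hall3 v hv with h' | h' | h'
          · right
            rw [h, h']
            exact ⟨hjk, hss.symm⟩
          · have := hlab.mpr h'
            rw [h, Prod.mk.injEq] at this
            exact absurd this.1 hjk
          · left; rw [h, h']
      · -- use the empty set
        push Not at hks
        have hne : T ≠ ∅ := by
          obtain ⟨l, hl, _, _⟩ := exists_ne3 hn k k k
          intro h
          have h1 : ((l, !s) : Fin n × Bool) ∈ T := by rw [hT]; exact ⟨rfl, hl⟩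
          rw [h] at h1
          exact h1
        have hadj : ∀ v : Fin n × Bool, α v ≠ 0 → v.2 = s → (crown n).Adj (k, !s) v := by
          intro v hv hvs
          refine ⟨?_, ?_⟩
          · intro h
            simp only at h
            apply hv
            have : v = (k, s) := by rw [← hvs, h]
            rw [this]; exact hks
          · rw [hvs]; exact hss
        refine mem_J_of_P_centre hg (fun v hv => absurd hv (Set.notMem_empty v)) hk ?_
          (hall _ isCut_empty hne)
        intro u v hu hv _
        rcases hside u hu with h | h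
        · rcases hside v hv with h' | h'
          · left; rw [h, h']
          · right; left; rw [h]; exact hadj v hv h'
        · rcases hside v hv with h' | h'
          · right; left; rw [h']; exact (hadj u hu h).symm
          · right; right; exact ⟨hadj u hu h, hadj v hv h'⟩
    · -- use `sideMinus`
      have hdisj : ∀ v ∈ sideMinus (!s) k, α v = 0 := by
        intro v hv
        by_contra hne
        have := huniq v hne hv.1
        rw [this] at hv
        exact hv.2 rfl
      refine mem_J_of_P_centre hg hdisj hk ?_ (hall _ (isCut_sideMinus hn (!s) k) hT)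
      intro u v hu hv hc
      have hlab := comp_sideMinus (fun h => hu (hdisj u h)) (fun h => hv (hdisj v h)) hc
      rw [Bool.not_not] at hlab
      have hadj : ∀ v : Fin n × Bool, v.2 = s → v ≠ (k, s) → (crown n).Adj (k, !s) v := by
        intro v hvs hvk
        refine ⟨?_, ?_⟩
        · intro h
          simp only at h
          apply hvk
          rw [← hvs, h]
        · rw [hvs]; exact hss
      rcases hside u hu with h | h
      · rcases hside v hv with h' | h'
        · left; rw [h, h']
        · right; left
          rw [h]
          refine hadj v h' ?_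
          intro h''
          have := hlab.mpr h''
          rw [h, Prod.mk.injEq] at this
          exact hss this.2
      · rcases hside v hv with h' | h'
        · right; left
          rw [h']
          refine (hadj u h ?_).symm
          intro h''
          have := hlab.mp h''
          rw [h', Prod.mk.injEq] at this
          exact hss this.2
        · by_cases hu' : u = (k, s)
          · left; rw [hu', hlab.mp hu']
          · right; right
            exact ⟨hadj u h hu', hadj v h' (fun h'' => hu' (hlab.mpr h''))⟩

/-- The lower bound. -/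
theorem four_le (hn : 4 ≤ n) (T : Set (Fin n × Bool)) {d : ℕ}
    (hd : d ∈ colonDegrees (binomialEdgeIdeal K (crown n)) (primeOf K (crown n) T)) : 4 ≤ d := by
  classical
  obtain ⟨f, hf, hcol⟩ := hd
  by_contra hlt
  have hmem : f ∈ binomialEdgeIdeal K (crown n) := by
    rw [mem_J_iff]
    intro α
    by_cases hα : Finsupp.degree α = d
    · refine mem_J_of_all hn T
        (weightedHomogeneousComponent_isWeightedHomogeneous (w := wt) α f) (by omega) ?_
      intro T' hT' hne
      exact (mem_P_iff (crown n) T').mp (mem_of_colon hT' hne hcol) α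
    · rw [component_eq_zero hf hα]
      exact zero_mem _
  have h1 : (1 : MvPolynomial ((Fin n × Bool) × Fin 2) K) ∈ primeOf K (crown n) T := by
    rw [← hcol, Submodule.mem_colon_singleton, smul_eq_mul, one_mul]
    exact hmem
  exact (primeOf_isPrime (K := K) (crown n) T).ne_top ((Ideal.eq_top_iff_one _).mpr h1)

end crown

end Pool.Agent.Lib.MP_354fda_al
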