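import Pool.Agent.Lib.MP_354fda_al.Defs

/-!
# The ideals `P_T` are prime
-/

set_option autoImplicit false

namespace Pool.Agent.Lib.MP_354fda_al

open MvPolynomial

variable (K : Type*) [Field K] {V C : Type*}

/-- The ideal generated by the variables of `T` and the binomials of pairs in the same class of
`c` outside `T`. -/
noncomputable def Q (T : Set V) (c : V → C) : Ideal (MvPolynomial (V × Fin 2) K) :=
  Ideal.span ({g | ∃ v ∈ T, ∃ j : Fin 2, g = X (v, j)} ∪
    {g | ∃ u v : V, u ∉ T ∧ v ∉ T ∧ c u = c v ∧ g = minor K u v})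

variable {K}

theorem X_mem_Q {T : Set V} {c : V → C} {v : V} (hv : v ∈ T) (j : Fin 2) :
    (X (v, j) : MvPolynomial (V × Fin 2) K) ∈ Q K T c :=
  Ideal.subset_span (Or.inl ⟨v, hv, j, rfl⟩)

theorem minor_mem_Q {T : Set V} {c : V → C} {u v : V} (h : c u = c v) :
    minor K u v ∈ Q K T c := by
  by_cases hu : u ∈ T
  · unfold minor
    exact Ideal.sub_mem _ (Ideal.mul_mem_right _ _ (X_mem_Q hu 0))
      (Ideal.mul_mem_left _ _ (X_mem_Q hu 1))
  by_cases hv : v ∈ T
  · unfold minor
    exact Ideal.sub_mem _ (Ideal.mul_mem_left _ _ (X_mem_Q hv 1))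
      (Ideal.mul_mem_right _ _ (X_mem_Q hv 0))
  exact Ideal.subset_span (Or.inr ⟨u, v, hu, hv, h, rfl⟩)

theorem swap_mem_Q {T : Set V} {c : V → C} {u v : V} (h : c u = c v) (b b' : Fin 2) :
    (X (u, b) * X (v, b') - X (u, b') * X (v, b) : MvPolynomial (V × Fin 2) K) ∈ Q K T c := by
  have h1 : minor K u v ∈ Q K T c := minor_mem_Q h
  unfold minor at h1
  fin_cases b <;> fin_cases b'
  · simp
  · have e : (X (u, 0) * X (v, 1) - X (u, 1) * X (v, 0) : MvPolynomial (V × Fin 2) K)
        = X (u, 0) * X (v, 1) - X (v, 0) * X (u, 1) := by ring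
    change (X (u, 0) * X (v, 1) - X (u, 1) * X (v, 0) : MvPolynomial (V × Fin 2) K) ∈ _
    rw [e]; exact h1
  · have e : (X (u, 1) * X (v, 0) - X (u, 0) * X (v, 1) : MvPolynomial (V × Fin 2) K)
        = -(X (u, 0) * X (v, 1) - X (v, 0) * X (u, 1)) := by ring
    change (X (u, 1) * X (v, 0) - X (u, 0) * X (v, 1) : MvPolynomial (V × Fin 2) K) ∈ _
    rw [e]; exact neg_mem h1
  · simp

/-- The class-and-index content of a monomial. -/
noncomputable def e1 (c : V → C) (m : V × Fin 2 →₀ ℕ) : C × Fin 2 →₀ ℕ :=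
  m.mapDomain (fun p => (c p.1, p.2))

/-- The vertex content of a monomial. -/
noncomputable def e2 (m : V × Fin 2 →₀ ℕ) : V →₀ ℕ := m.mapDomain Prod.fst

theorem e1_add (c : V → C) (m m' : V × Fin 2 →₀ ℕ) : e1 c (m + m') = e1 c m + e1 c m' :=
  Finsupp.mapDomain_add

theorem e2_add (m m' : V × Fin 2 →₀ ℕ) : e2 (m + m') = e2 m + e2 m' :=
  Finsupp.mapDomain_add

theorem e1_single (c : V → C) (p : V × Fin 2) :
    e1 c (Finsupp.single p 1) = Finsupp.single (c p.1, p.2) 1 := Finsupp.mapDomain_single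

theorem e2_single (p : V × Fin 2) :
    e2 (Finsupp.single p 1) = Finsupp.single p.1 1 := Finsupp.mapDomain_single

theorem exists_eq_single_add {α : Type*} {m : α →₀ ℕ} {p : α} (h : m p ≠ 0) :
    ∃ m1, m = Finsupp.single p 1 + m1 := by
  refine ⟨m - Finsupp.single p 1, ?_⟩
  rw [add_tsub_cancel_of_le]
  rw [Finsupp.single_le_iff]
  omega

theorem exists_of_mapDomain {α β : Type*} {f : α → β} {m : α →₀ ℕ} {x : β}
    (h : (m.mapDomain f) x ≠ 0) : ∃ p, m p ≠ 0 ∧ f p = x := by
  classical
  have h1 : x ∈ (m.mapDomain f).support := Finsupp.mem_support_iff.mpr h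
  have h2 := Finsupp.mapDomain_support h1
  obtain ⟨p, hp, hpx⟩ := Finset.mem_image.mp h2
  exact ⟨p, Finsupp.mem_support_iff.mp hp, hpx⟩

theorem monomial_sub_mem_Q (T : Set V) (c : V → C) : ∀ (n : ℕ) (m m' : V × Fin 2 →₀ ℕ),
    Finsupp.degree m = n → e1 c m = e1 c m' → e2 m = e2 m' →
    (monomial m 1 - monomial m' 1 : MvPolynomial (V × Fin 2) K) ∈ Q K T c := by
  classical
  intro n
  induction n with
  | zero =>
    intro m m' hm h1 h2
    have hm0 : m = 0 := (Finsupp.degree_eq_zero_iff m).mp hm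
    have hm'0 : m' = 0 := by
      by_contra hne
      obtain ⟨p, hp⟩ := Finsupp.ne_iff.mp hne
      rw [Finsupp.coe_zero, Pi.zero_apply] at hp
      obtain ⟨m1, rfl⟩ := exists_eq_single_add hp
      rw [hm0, e2_add, e2_single] at h2
      have := DFunLike.congr_fun h2 p.1
      simp [e2] at this
      omega
    rw [hm0, hm'0, sub_self]
    exact zero_mem _
  | succ n ih =>
    intro m m' hm h1 h2
    have hm0 : m ≠ 0 := by
      rintro rfl
      simp at hm
    obtain ⟨p, hp⟩ := Finsupp.ne_iff.mp hm0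
    rw [Finsupp.coe_zero, Pi.zero_apply] at hp
    obtain ⟨m1, rfl⟩ := exists_eq_single_add hp
    have hm1 : Finsupp.degree m1 = n := by
      rw [map_add, Finsupp.degree_single] at hm
      omega
    -- the case that `m'` contains `p`
    have key : ∀ m'' : V × Fin 2 →₀ ℕ, m'' p ≠ 0 → e1 c (Finsupp.single p 1 + m1) = e1 c m'' →
        e2 (Finsupp.single p 1 + m1) = e2 m'' →
        (monomial (Finsupp.single p 1 + m1) 1 - monomial m'' 1 : MvPolynomial (V × Fin 2) K)
          ∈ Q K T c := by
      intro m'' hp'' h1' h2'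
      obtain ⟨m1'', rfl⟩ := exists_eq_single_add hp''
      rw [e1_add, e1_add] at h1'
      rw [e2_add, e2_add] at h2'
      have := ih m1 m1'' hm1 (add_left_cancel h1') (add_left_cancel h2')
      have e : (monomial (Finsupp.single p 1 + m1) 1 - monomial (Finsupp.single p 1 + m1'') 1 :
          MvPolynomial (V × Fin 2) K) = X p * (monomial m1 1 - monomial m1'' 1) := by
        rw [mul_sub, X, monomial_mul, monomial_mul, one_mul]
      rw [e]
      exact Ideal.mul_mem_left _ _ this
    by_cases hp' : m' p ≠ 0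
    · exact key m' hp' h1 h2
    push Not at hp'
    obtain ⟨v, b⟩ := p
    have h3 : (e2 m') v ≠ 0 := by
      rw [← h2, e2_add, e2_single]
      simp
    have h4 : (e1 c m') (c v, b) ≠ 0 := by
      rw [← h1, e1_add, e1_single]
      simp
    obtain ⟨⟨v', b'⟩, hv', hvv⟩ := exists_of_mapDomain h3
    obtain ⟨⟨w, b''⟩, hw, hwv⟩ := exists_of_mapDomain h4
    simp only at hvv
    subst hvv
    simp only [Prod.mk.injEq] at hwv
    obtain ⟨hcw, rfl⟩ := hwv
    obtain ⟨m1', rfl⟩ := exists_eq_single_add hw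
    have hne : (w, b'') ≠ (v', b') := by
      rintro h
      rw [Prod.mk.injEq] at h
      obtain ⟨rfl, rfl⟩ := h
      exact hw hp'
    rw [Finsupp.add_apply, Finsupp.single_apply, if_neg hne, zero_add] at hv'
    obtain ⟨m2, rfl⟩ := exists_eq_single_add hv'
    -- swap the indices
    have hk := key (Finsupp.single (v', b'') 1 + (Finsupp.single (w, b') 1 + m2)) (by simp) (by
        rw [h1]
        simp only [e1_add, e1_single, hcw]) (by
        rw [h2]
        simp only [e2_add, e2_single]
        abel)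
    have hs := swap_mem_Q (K := K) (T := T) hcw.symm b'' b'
    have e : (monomial (Finsupp.single (v', b'') 1 + m1) 1 -
        monomial (Finsupp.single (w, b'') 1 + (Finsupp.single (v', b') 1 + m2)) 1 :
          MvPolynomial (V × Fin 2) K) =
        (monomial (Finsupp.single (v', b'') 1 + m1) 1 -
          monomial (Finsupp.single (v', b'') 1 + (Finsupp.single (w, b') 1 + m2)) 1) +
        (X (v', b'') * X (w, b') - X (v', b') * X (w, b'')) * monomial m2 1 := by
      have ea : (monomial (Finsupp.single (v', b'') 1 + (Finsupp.single (w, b') 1 + m2)) 1 :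
          MvPolynomial (V × Fin 2) K) = X (v', b'') * (X (w, b') * monomial m2 1) := by
        rw [X, X, monomial_mul, monomial_mul, one_mul, one_mul]
      have eb : (monomial (Finsupp.single (w, b'') 1 + (Finsupp.single (v', b') 1 + m2)) 1 :
          MvPolynomial (V × Fin 2) K) = X (w, b'') * (X (v', b') * monomial m2 1) := by
        rw [X, X, monomial_mul, monomial_mul, one_mul, one_mul]
      rw [ea, eb]
      ring
    rw [e]
    exact Ideal.add_mem _ hk (Ideal.mul_mem_right _ _ hs)

/-- A monomial avoids `T` if none of its variables belongs to `T`. -/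
def Avoids (T : Set V) (m : V × Fin 2 →₀ ℕ) : Prop := ∀ p, m p ≠ 0 → p.1 ∉ T

/-- The exponent of the image of a monomial. -/
noncomputable def expo (c : V → C) (m : V × Fin 2 →₀ ℕ) : (C × Fin 2) ⊕ V →₀ ℕ :=
  m.mapDomain (fun p => Sum.inl (c p.1, p.2)) + m.mapDomain (fun p => Sum.inr p.1)

theorem expo_add (c : V → C) (m m' : V × Fin 2 →₀ ℕ) :
    expo c (m + m') = expo c m + expo c m' := by
  unfold expo
  rw [Finsupp.mapDomain_add, Finsupp.mapDomain_add]
  abel

theorem expo_single (c : V → C) (p : V × Fin 2) :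
    expo c (Finsupp.single p 1) =
      Finsupp.single (Sum.inl (c p.1, p.2)) 1 + Finsupp.single (Sum.inr p.1) 1 := by
  unfold expo
  rw [Finsupp.mapDomain_single, Finsupp.mapDomain_single]

theorem e1_eq_of_expo (c : V → C) {m m' : V × Fin 2 →₀ ℕ} (h : expo c m = expo c m') :
    e1 c m = e1 c m' := by
  have key : ∀ (m : V × Fin 2 →₀ ℕ) (q : C × Fin 2), expo c m (Sum.inl q) = e1 c m q := by
    intro m q
    have h1 : m.mapDomain (fun p => (Sum.inl (c p.1, p.2) : (C × Fin 2) ⊕ V)) =
        (e1 c m).mapDomain Sum.inl := by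
      unfold e1
      rw [← Finsupp.mapDomain_comp]
      rfl
    have h2 : m.mapDomain (fun p => (Sum.inr p.1 : (C × Fin 2) ⊕ V)) =
        (e2 m).mapDomain Sum.inr := by
      unfold e2
      rw [← Finsupp.mapDomain_comp]
      rfl
    unfold expo
    rw [Finsupp.add_apply, h1, h2, Finsupp.mapDomain_apply Sum.inl_injective,
      Finsupp.mapDomain_of_notMem_range _ _ (by simp), add_zero]
  ext q
  rw [← key, ← key, h]

theorem e2_eq_of_expo (c : V → C) {m m' : V × Fin 2 →₀ ℕ} (h : expo c m = expo c m') :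
    e2 m = e2 m' := by
  have key : ∀ (m : V × Fin 2 →₀ ℕ) (v : V), expo c m (Sum.inr v) = e2 m v := by
    intro m q
    have h1 : m.mapDomain (fun p => (Sum.inl (c p.1, p.2) : (C × Fin 2) ⊕ V)) =
        (e1 c m).mapDomain Sum.inl := by
      unfold e1
      rw [← Finsupp.mapDomain_comp]
      rfl
    have h2 : m.mapDomain (fun p => (Sum.inr p.1 : (C × Fin 2) ⊕ V)) =
        (e2 m).mapDomain Sum.inr := by
      unfold e2
      rw [← Finsupp.mapDomain_comp]
      rfl
    unfold expo
    rw [Finsupp.add_apply, h1, h2, Finsupp.mapDomain_apply Sum.inr_injective,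
      Finsupp.mapDomain_of_notMem_range _ _ (by simp), zero_add]
  ext q
  rw [← key, ← key, h]

open Classical in
/-- The monomial map whose kernel is `Q K T c`. -/
noncomputable def phi (T : Set V) (c : V → C) :
    MvPolynomial (V × Fin 2) K →ₐ[K] MvPolynomial ((C × Fin 2) ⊕ V) K :=
  aeval (fun p => if p.1 ∈ T then 0 else X (Sum.inl (c p.1, p.2)) * X (Sum.inr p.1))

theorem phi_monomial {T : Set V} (c : V → C) : ∀ (n : ℕ) (m : V × Fin 2 →₀ ℕ),
    Finsupp.degree m = n → Avoids T m →
    phi (K := K) T c (monomial m 1) = monomial (expo c m) 1 := by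
  intro n
  induction n with
  | zero =>
    intro m hm _
    have hm0 : m = 0 := (Finsupp.degree_eq_zero_iff m).mp hm
    subst hm0
    have : expo c (0 : V × Fin 2 →₀ ℕ) = 0 := by simp [expo]
    rw [this]
    exact map_one _
  | succ n ih =>
    intro m hm hav
    have hm0 : m ≠ 0 := by
      rintro rfl
      simp at hm
    obtain ⟨p, hp⟩ := Finsupp.ne_iff.mp hm0
    rw [Finsupp.coe_zero, Pi.zero_apply] at hp
    obtain ⟨m1, rfl⟩ := exists_eq_single_add hp
    have hm1 : Finsupp.degree m1 = n := by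
      rw [map_add, Finsupp.degree_single] at hm
      omega
    have hav1 : Avoids T m1 := by
      intro q hq
      apply hav
      rw [Finsupp.add_apply]
      omega
    have hpT : p.1 ∉ T := hav p hp
    have e : (monomial (Finsupp.single p 1 + m1) 1 : MvPolynomial (V × Fin 2) K) =
        X p * monomial m1 1 := by
      rw [X, monomial_mul, one_mul]
    rw [e, map_mul, ih m1 hm1 hav1, expo_add, expo_single]
    unfold phi
    rw [aeval_X, if_neg hpT, X, X, monomial_mul, monomial_mul, one_mul, one_mul]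

theorem mem_Q_of_not_avoids {T : Set V} (c : V → C) {m : V × Fin 2 →₀ ℕ} (h : ¬ Avoids T m) :
    (monomial m 1 : MvPolynomial (V × Fin 2) K) ∈ Q K T c := by
  unfold Avoids at h
  push Not at h
  obtain ⟨p, hp, hpT⟩ := h
  obtain ⟨m1, rfl⟩ := exists_eq_single_add hp
  have e : (monomial (Finsupp.single p 1 + m1) 1 : MvPolynomial (V × Fin 2) K) =
      X p * monomial m1 1 := by
    rw [X, monomial_mul, one_mul]
  rw [e]
  exact Ideal.mul_mem_right _ _ (X_mem_Q (j := p.2) hpT)

theorem Q_le_ker (T : Set V) (c : V → C) :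
    Q K T c ≤ RingHom.ker (phi (K := K) T c) := by
  unfold Q
  rw [Ideal.span_le]
  rintro g (⟨v, hv, j, rfl⟩ | ⟨u, v, hu, hv, huv, rfl⟩)
  · change phi T c (X (v, j)) = 0
    unfold phi
    rw [aeval_X, if_pos hv]
  · change phi T c (minor K u v) = 0
    unfold phi minor
    simp only [map_sub, map_mul, aeval_X, if_neg hu, if_neg hv, huv]
    ring

theorem ker_le_Q (T : Set V) (c : V → C) :
    RingHom.ker (phi (K := K) T c) ≤ Q K T c := by
  classical
  let ψ : MvPolynomial ((C × Fin 2) ⊕ V) K →ₗ[K] (MvPolynomial (V × Fin 2) K ⧸ Q K T c) :=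
    (basisMonomials ((C × Fin 2) ⊕ V) K).constr K (fun μ =>
      if h : ∃ m : V × Fin 2 →₀ ℕ, expo c m = μ ∧ Avoids T m then
        Ideal.Quotient.mk (Q K T c) (monomial h.choose 1) else 0)
  have hψ : ψ ∘ₗ (phi (K := K) T c).toLinearMap =
      (Ideal.Quotient.mkₐ K (Q K T c)).toLinearMap := by
    refine (basisMonomials (V × Fin 2) K).ext ?_
    intro m
    rw [coe_basisMonomials]
    change ψ (phi T c (monomial m 1)) = Ideal.Quotient.mk (Q K T c) (monomial m 1)
    by_cases hm : Avoids T m
    · rw [phi_monomial c _ m rfl hm]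
      have e : (monomial (expo c m) 1 : MvPolynomial ((C × Fin 2) ⊕ V) K) =
          basisMonomials ((C × Fin 2) ⊕ V) K (expo c m) := by
        rw [coe_basisMonomials]
      rw [e, Module.Basis.constr_basis]
      have hex : ∃ m' : V × Fin 2 →₀ ℕ, expo c m' = expo c m ∧ Avoids T m' := ⟨m, rfl, hm⟩
      rw [dif_pos hex]
      rw [Ideal.Quotient.eq]
      have hspec := hex.choose_spec.1
      exact monomial_sub_mem_Q T c _ _ _ rfl (e1_eq_of_expo c hspec) (e2_eq_of_expo c hspec)
    · have h1 := mem_Q_of_not_avoids (K := K) c hm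
      have h2 : phi (K := K) T c (monomial m 1) = 0 := Q_le_ker T c h1
      rw [h2, map_zero]
      exact (Ideal.Quotient.eq_zero_iff_mem.mpr h1).symm
  intro f hf
  have h1 : ψ (phi T c f) = Ideal.Quotient.mk (Q K T c) f := by
    have := LinearMap.congr_fun hψ f
    exact this
  have h2 : phi T c f = 0 := hf
  rw [h2, map_zero] at h1
  exact Ideal.Quotient.eq_zero_iff_mem.mp h1.symm

theorem Q_eq_ker (T : Set V) (c : V → C) : Q K T c = RingHom.ker (phi (K := K) T c) :=
  le_antisymm (Q_le_ker T c) (ker_le_Q T c)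

instance Q_isPrime (T : Set V) (c : V → C) : (Q K T c).IsPrime := by
  rw [Q_eq_ker]
  exact RingHom.ker_isPrime _

open Classical in
/-- The component function of the graph induced on the complement of `T`. -/
noncomputable def comp (G : SimpleGraph V) (T : Set V) (v : V) :
    Option (G.induce Tᶜ).ConnectedComponent :=
  if h : v ∈ Tᶜ then some ((G.induce Tᶜ).connectedComponentMk ⟨v, h⟩) else none

theorem primeOf_eq (G : SimpleGraph V) (T : Set V) : primeOf K G T = Q K T (comp G T) := by
  unfold primeOf Q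
  congr 2
  ext g
  constructor
  · rintro ⟨u, v, huv, rfl⟩
    refine ⟨u, v, u.2, v.2, ?_, rfl⟩
    unfold comp
    rw [dif_pos u.2, dif_pos v.2]
    congr 1
    exact SimpleGraph.ConnectedComponent.sound huv
  · rintro ⟨u, v, hu, hv, huv, rfl⟩
    refine ⟨⟨u, hu⟩, ⟨v, hv⟩, ?_, rfl⟩
    unfold comp at huv
    rw [dif_pos (show u ∈ Tᶜ from hu), dif_pos (show v ∈ Tᶜ from hv)] at huv
    exact SimpleGraph.ConnectedComponent.exact (Option.some_injective _ huv)

instance primeOf_isPrime (G : SimpleGraph V) (T : Set V) : (primeOf K G T).IsPrime := by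
  rw [primeOf_eq]
  infer_instance

end Pool.Agent.Lib.MP_354fda_al
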