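import Pool.Agent.Lib.MP_354fda_al.Upper

/-!
# Sanity check: the cut sets of the crown graph are exactly the listed ones
-/

set_option autoImplicit false

namespace Pool.Agent.Lib.MP_354fda_al

theorem mem_cutSets_of_isCut {V : Type*} [Finite V] {G : SimpleGraph V} {T : Set V}
    (hT : IsCut G T) : T ∈ cutSets G := by
  classical
  right
  intro w hw
  obtain ⟨u, v, hu, hv, hwu, hwv, hne⟩ := hT w hw
  have hsub : (Tᶜ : Set V) ≤ (T \ {w})ᶜ := by
    intro z hz hz'
    exact hz hz'.1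
  have hw' : w ∈ (T \ {w})ᶜ := fun h => h.2 rfl
  let F := SimpleGraph.ConnectedComponent.map (SimpleGraph.induceHomOfLE G hsub).toHom
  have hFmk : ∀ (z : V) (hz : z ∈ Tᶜ), F ((G.induce Tᶜ).connectedComponentMk ⟨z, hz⟩) =
      (G.induce (T \ {w})ᶜ).connectedComponentMk ⟨z, hsub hz⟩ := fun z hz => rfl
  have hadj : ∀ (z : V) (hz : z ∈ Tᶜ), G.Adj w z →
      (G.induce (T \ {w})ᶜ).connectedComponentMk ⟨z, hsub hz⟩ =
        (G.induce (T \ {w})ᶜ).connectedComponentMk ⟨w, hw'⟩ := by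
    intro z hz h
    apply SimpleGraph.ConnectedComponent.sound
    apply SimpleGraph.Adj.reachable
    exact h.symm
  have hsurj : Function.Surjective F := by
    intro c
    induction c using SimpleGraph.ConnectedComponent.ind with
    | _ a =>
    obtain ⟨a, ha⟩ := a
    by_cases haw : a = w
    · subst haw
      refine ⟨(G.induce Tᶜ).connectedComponentMk ⟨u, hu⟩, ?_⟩
      rw [hFmk u hu]
      exact hadj u hu hwu
    · have haT : a ∈ Tᶜ := fun h => ha ⟨h, haw⟩
      exact ⟨(G.induce Tᶜ).connectedComponentMk ⟨a, haT⟩, rfl⟩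
  have hninj : ¬ Function.Injective F := by
    intro hinj
    apply hne
    have h1 : F ((G.induce Tᶜ).connectedComponentMk ⟨u, hu⟩) =
        F ((G.induce Tᶜ).connectedComponentMk ⟨v, hv⟩) := by
      rw [hFmk u hu, hFmk v hv, hadj u hu hwu, hadj v hv hwv]
    have h2 := hinj h1
    unfold comp
    rw [dif_pos (show u ∈ Tᶜ from hu), dif_pos (show v ∈ Tᶜ from hv), h2]
  unfold numComp
  have := Fintype.ofFinite (G.induce Tᶜ).ConnectedComponent
  have := Fintype.ofFinite (G.induce (T \ {w})ᶜ).ConnectedComponent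
  rw [Nat.card_eq_fintype_card, Nat.card_eq_fintype_card]
  exact Fintype.card_lt_of_surjective_not_injective F hsurj hninj

/-- The set `𝒞(C_{n,n})`, as listed in the problem file. -/
theorem cutSets_crown {n : ℕ} (hn : 4 ≤ n) (T : Set (Fin n × Bool)) :
    T ∈ cutSets (crown n) ↔
      T = ∅ ∨ (∃ t, T = {v | v.2 = t}) ∨ (∃ t i, T = {v | v.2 = t ∧ v.1 ≠ i}) ∨
        (∃ i j, i ≠ j ∧ T = {v | v.1 ≠ i ∧ v.1 ≠ j}) := by
  constructor
  · intro h
    exact classify (isCut_of_mem_cutSets h)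
  · rintro (rfl | ⟨t, rfl⟩ | ⟨t, i, rfl⟩ | ⟨i, j, hij, rfl⟩)
    · exact mem_cutSets_of_isCut isCut_empty
    · exact mem_cutSets_of_isCut (isCut_side hn t)
    · exact mem_cutSets_of_isCut (isCut_sideMinus hn t i)
    · exact mem_cutSets_of_isCut (isCut_pairCut hij)

end Pool.Agent.Lib.MP_354fda_al
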