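import Pool.Agent.Lib.MP_354fda_al.Cuts

/-!
# The upper bound: for every cut set there is a suitable polynomial of degree four
-/

set_option autoImplicit false

namespace Pool.Agent.Lib.MP_354fda_al

open MvPolynomial

variable {K : Type*} [Field K]

section general

variable {V : Type*}

theorem X_mul_minor (w u v : V) (j : Fin 2) :
    X (w, j) * minor K u v = X (u, j) * minor K w v + X (v, j) * minor K u w := by
  unfold minor
  fin_cases j
  · change X (w, 0) * (X (u, 0) * X (v, 1) - X (v, 0) * X (u, 1)) =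
      X (u, 0) * (X (w, 0) * X (v, 1) - X (v, 0) * X (w, 1)) +
        X (v, 0) * (X (u, 0) * X (w, 1) - X (w, 0) * X (u, 1))
    ring
  · change X (w, 1) * (X (u, 0) * X (v, 1) - X (v, 0) * X (u, 1)) =
      X (u, 1) * (X (w, 0) * X (v, 1) - X (v, 0) * X (w, 1)) +
        X (v, 1) * (X (u, 0) * X (w, 1) - X (w, 0) * X (u, 1))
    ring

theorem minor_mem_J {G : SimpleGraph V} {u v : V} (h : G.Adj u v) :
    minor K u v ∈ binomialEdgeIdeal K G := Ideal.subset_span ⟨u, v, h, rfl⟩

theorem path1 {G : SimpleGraph V} {u w v : V} (j : Fin 2) (h1 : G.Adj u w) (h2 : G.Adj w v) :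
    X (w, j) * minor K u v ∈ binomialEdgeIdeal K G := by
  rw [X_mul_minor]
  exact add_mem (Ideal.mul_mem_left _ _ (minor_mem_J h2))
    (Ideal.mul_mem_left _ _ (minor_mem_J h1))

theorem path2 {G : SimpleGraph V} {u w w' v : V} (j j' : Fin 2) (h1 : G.Adj u w)
    (h2 : G.Adj w w') (h3 : G.Adj w' v) :
    X (w, j) * (X (w', j') * minor K u v) ∈ binomialEdgeIdeal K G := by
  have e : X (w, j) * (X (w', j') * minor K u v) =
      X (u, j) * (X (w', j') * minor K w v) + X (v, j) * X (w', j') * minor K u w := by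
    rw [mul_left_comm, X_mul_minor]
    ring
  rw [e]
  exact add_mem (Ideal.mul_mem_left _ _ (path1 j' h2 h3))
    (Ideal.mul_mem_left _ _ (minor_mem_J h1))

theorem path3 {G : SimpleGraph V} {u w w' w'' v : V} (j j' j'' : Fin 2) (h1 : G.Adj u w)
    (h2 : G.Adj w w') (h3 : G.Adj w' w'') (h4 : G.Adj w'' v) :
    X (w, j) * (X (w', j') * (X (w'', j'') * minor K u v)) ∈ binomialEdgeIdeal K G := by
  have e : X (w, j) * (X (w', j') * (X (w'', j'') * minor K u v)) =
      X (u, j) * (X (w', j') * (X (w'', j'') * minor K w v)) +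
        X (v, j) * X (w', j') * X (w'', j'') * minor K u w := by
    have := X_mul_minor (K := K) w u v j
    linear_combination (X (w', j') * X (w'', j'')) * this
  rw [e]
  exact add_mem (Ideal.mul_mem_left _ _ (path2 j' j'' h2 h3 h4))
    (Ideal.mul_mem_left _ _ (minor_mem_J h1))

/-- The criterion for `J : f = P_T`. -/
theorem colon_eq {G : SimpleGraph V} {T : Set V} {f : MvPolynomial (V × Fin 2) K}
    (h1 : ∀ v ∈ T, ∀ j : Fin 2, X (v, j) * f ∈ binomialEdgeIdeal K G)
    (h2 : ∀ u v : V, u ∉ T → v ∉ T → comp G T u = comp G T v →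
      minor K u v * f ∈ binomialEdgeIdeal K G)
    (h3 : f ∉ primeOf K G T) :
    Submodule.colon (binomialEdgeIdeal K G) {f} = primeOf K G T := by
  apply le_antisymm
  · intro g hg
    rw [Submodule.mem_colon_singleton, smul_eq_mul] at hg
    exact ((primeOf_isPrime G T).mem_or_mem (J_le_P G T hg)).resolve_right h3
  · rw [primeOf_eq]
    conv_lhs => unfold Q
    rw [Ideal.span_le]
    rintro g (⟨v, hv, j, rfl⟩ | ⟨u, v, hu, hv, huv, rfl⟩)
    · rw [SetLike.mem_coe, Submodule.mem_colon_singleton, smul_eq_mul]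
      exact h1 v hv j
    · rw [SetLike.mem_coe, Submodule.mem_colon_singleton, smul_eq_mul]
      exact h2 u v hu hv huv

end general

section crown

variable {n : ℕ}

theorem upper_side (hn : 4 ≤ n) (t : Bool) :
    4 ∈ colonDegrees (binomialEdgeIdeal K (crown n)) (primeOf K (crown n) (side n t)) := by
  classical
  obtain ⟨i1, _, _, _⟩ := exists_ne3 hn ⟨0, by omega⟩ ⟨0, by omega⟩ ⟨0, by omega⟩
  obtain ⟨i2, h21, _, _⟩ := exists_ne3 hn i1 i1 i1
  obtain ⟨i3, h31, h32, _⟩ := exists_ne3 hn i1 i2 i2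
  obtain ⟨i4, h41, h42, h43⟩ := exists_ne3 hn i1 i2 i3
  have hts : t ≠ !t := by cases t <;> simp
  refine ⟨minor K (i1, !t) (i2, !t) * minor K (i3, !t) (i4, !t),
    (minor_homog _ _).mul (minor_homog _ _), colon_eq ?_ ?_ ?_⟩
  · rintro ⟨k, t'⟩ hv j
    have : t' = t := hv
    subst this
    by_cases hk : k ≠ i1 ∧ k ≠ i2
    · rw [← mul_assoc]
      exact Ideal.mul_mem_right _ _ (path1 j ⟨hk.1.symm, hts.symm⟩ ⟨hk.2, hts⟩)
    · have hk3 : k ≠ i3 ∧ k ≠ i4 := by
        rw [not_and_or] at hk
        push Not at hk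
        rcases hk with rfl | rfl
        · exact ⟨h31.symm, h41.symm⟩
        · exact ⟨h32.symm, h42.symm⟩
      rw [mul_left_comm]
      exact Ideal.mul_mem_left _ _ (path1 j ⟨hk3.1.symm, hts.symm⟩ ⟨hk3.2, hts⟩)
  · intro u v hu hv huv
    rw [comp_side hu hv huv]
    have : minor K v v = 0 := by unfold minor; ring
    rw [this, zero_mul]; exact zero_mem _
  · refine notMem_P_of_eval (fun z => if z = (i1, !t) ∨ z = (i3, !t) then 1 else 0)
      (fun z => if z = (i2, !t) ∨ z = (i4, !t) then 1 else 0) ?_ ?_ ?_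
    · rintro ⟨k, t'⟩ hv
      have : t' = t := hv
      subst this
      simp [hts]
    · intro u v hu hv huv
      rw [comp_side hu hv huv]; ring
    · unfold minor
      simp [h21, h31, h32, h41, h42, h43, h21.symm, h31.symm, h32.symm, h41.symm, h42.symm,
        h43.symm]

theorem upper_sideMinus (hn : 4 ≤ n) (t : Bool) (i : Fin n) :
    4 ∈ colonDegrees (binomialEdgeIdeal K (crown n)) (primeOf K (crown n) (sideMinus t i)) := by
  classical
  obtain ⟨j, hj, _, _⟩ := exists_ne3 hn i i i
  obtain ⟨k, hk, hkj, _⟩ := exists_ne3 hn i j j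
  have hts : t ≠ !t := by cases t <;> simp
  have hbt : ∀ b : Bool, b ≠ t → b = !t := by cases t <;> decide
  refine ⟨X ((i, t), 0) * X ((k, !t), 0) * minor K (i, !t) (j, !t),
    ((isHomogeneous_X K _).mul (isHomogeneous_X K _)).mul (minor_homog _ _), colon_eq ?_ ?_ ?_⟩
  · rintro ⟨l, t'⟩ ⟨hl1, hl2⟩ b
    simp only at hl1 hl2
    subst hl1
    by_cases hlj : l = j
    · subst hlj
      have e : X ((l, t'), b) * (X ((i, t'), 0) * X ((k, !t'), 0) * minor K (i, !t') (l, !t')) =
          X ((l, t'), b) * (X ((k, !t'), 0) * (X ((i, t'), 0) * minor K (i, !t') (l, !t'))) := by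
        ring
      rw [e]
      exact path3 b 0 0 ⟨hl2.symm, hts.symm⟩ ⟨hkj.symm, hts⟩ ⟨hk, hts.symm⟩ ⟨hl2.symm, hts⟩
    · have e : X ((l, t'), b) * (X ((i, t'), 0) * X ((k, !t'), 0) * minor K (i, !t') (j, !t')) =
          X ((i, t'), 0) * X ((k, !t'), 0) * (X ((l, t'), b) * minor K (i, !t') (j, !t')) := by
        ring
      rw [e]
      exact Ideal.mul_mem_left _ _ (path1 b ⟨hl2.symm, hts.symm⟩ ⟨hlj, hts⟩)
  · rintro ⟨u1, u2⟩ ⟨v1, v2⟩ hu hv huv
    have hlab := comp_sideMinus hu hv huv
    have hzero : ∀ x : Fin n × Bool, minor K x x = 0 := by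
      intro x; unfold minor; ring
    have hcase : ∀ (a1 : Fin n) (a2 : Bool), ((a1, a2) : Fin n × Bool) ∉ sideMinus t i →
        (a1 = i ∧ a2 = t) ∨ a2 = !t := by
      intro a1 a2 ha
      by_cases h : a2 = t
      · left
        refine ⟨?_, h⟩
        by_contra h'
        exact ha ⟨h, h'⟩
      · exact Or.inr (hbt a2 h)
    by_cases huz : ((u1, u2) : Fin n × Bool) = (i, !t)
    · rw [huz, hlab.mp huz, hzero, zero_mul]; exact zero_mem _
    have hvz : ((v1, v2) : Fin n × Bool) ≠ (i, !t) := fun h => huz (hlab.mpr h)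
    rcases hcase u1 u2 hu with ⟨rfl, rfl⟩ | rfl
    · rcases hcase v1 v2 hv with ⟨rfl, rfl⟩ | rfl
      · rw [hzero, zero_mul]; exact zero_mem _
      · refine Ideal.mul_mem_right _ _ (minor_mem_J ⟨?_, hts⟩)
        rintro h
        simp only at h
        exact hvz (by rw [h])
    · have hu1 : u1 ≠ i := by rintro rfl; exact huz rfl
      rcases hcase v1 v2 hv with ⟨rfl, rfl⟩ | rfl
      · exact Ideal.mul_mem_right _ _ (minor_mem_J ⟨hu1, hts.symm⟩)
      · have hv1 : v1 ≠ i := by rintro rfl; exact hvz rfl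
        have e : minor K (u1, !t) (v1, !t) *
            (X ((i, t), 0) * X ((k, !t), 0) * minor K (i, !t) (j, !t)) =
            X ((k, !t), 0) * minor K (i, !t) (j, !t) *
              (X ((i, t), 0) * minor K (u1, !t) (v1, !t)) := by ring
        rw [e]
        exact Ideal.mul_mem_left _ _ (path1 0 ⟨hu1, hts.symm⟩ ⟨hv1.symm, hts⟩)
  · refine notMem_P_of_eval
      (fun z => if z ∈ sideMinus t i then 0 else if z = (i, !t) then 0 else 1)
      (fun z => if z ∈ sideMinus t i then 0 else if z = (i, !t) then 1 else 0) ?_ ?_ ?_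
    · intro z hz
      simp [hz]
    · intro u v hu hv huv
      have hlab := comp_sideMinus hu hv huv
      by_cases huz : u = (i, !t)
      · simp [hu, hv, huz, hlab.mp huz]
      · have hvz : v ≠ (i, !t) := fun h => huz (hlab.mpr h)
        simp [hu, hv, huz, hvz]
    · have m1 : ((i, t) : Fin n × Bool) ∉ sideMinus t i := fun h => h.2 rfl
      have m2 : ∀ l, ((l, !t) : Fin n × Bool) ∉ sideMinus t i := fun l h => hts h.1.symm
      unfold minor
      simp [m1, m2, hj, hk, hts]

theorem upper_pairCut (hn : 4 ≤ n) {i j : Fin n} (hij : i ≠ j) :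
    4 ∈ colonDegrees (binomialEdgeIdeal K (crown n)) (primeOf K (crown n) (pairCut i j)) := by
  classical
  refine ⟨X ((i, false), 0) * X ((j, false), 0) * minor K (i, true) (j, true),
    ((isHomogeneous_X K _).mul (isHomogeneous_X K _)).mul (minor_homog _ _), colon_eq ?_ ?_ ?_⟩
  · rintro ⟨l, b'⟩ ⟨hl1, hl2⟩ b
    simp only at hl1 hl2
    cases b'
    · have e : X ((l, false), b) *
          (X ((i, false), 0) * X ((j, false), 0) * minor K (i, true) (j, true)) =
          X ((i, false), 0) * X ((j, false), 0) *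
            (X ((l, false), b) * minor K (i, true) (j, true)) := by ring
      rw [e]
      exact Ideal.mul_mem_left _ _ (path1 b ⟨Ne.symm hl1, by simp⟩ ⟨hl2, by simp⟩)
    · have e : X ((l, true), b) *
          (X ((i, false), 0) * X ((j, false), 0) * minor K (i, true) (j, true)) =
          X ((j, false), 0) * (X ((l, true), b) *
            (X ((i, false), 0) * minor K (i, true) (j, true))) := by ring
      rw [e]
      exact path3 0 b 0 ⟨hij, by simp⟩ ⟨Ne.symm hl2, by simp⟩ ⟨hl1, by simp⟩ ⟨hij, by simp⟩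
  · rintro ⟨u1, u2⟩ ⟨v1, v2⟩ hu hv huv
    have hlab := comp_pairCut hij false hu hv huv
    have hzero : ∀ x : Fin n × Bool, minor K x x = 0 := by
      intro x; unfold minor; ring
    have hcase : ∀ (a1 : Fin n) (a2 : Bool), ((a1, a2) : Fin n × Bool) ∉ pairCut i j →
        a1 = i ∨ a1 = j := by
      intro a1 a2 ha
      by_contra hcon
      push Not at hcon
      exact ha hcon
    have hmain : ((u1, u2) : Fin n × Bool) = (v1, v2) ∨ (crown n).Adj (u1, u2) (v1, v2) := by
      rcases hcase u1 u2 hu with rfl | rfl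
      · rcases hcase v1 v2 hv with rfl | rfl
        · left
          cases u2 <;> cases v2 <;> simp [hij, hij.symm] at hlab ⊢
        · right
          refine ⟨hij, ?_⟩
          cases u2 <;> cases v2 <;> simp [hij, hij.symm] at hlab ⊢
      · rcases hcase v1 v2 hv with rfl | rfl
        · right
          refine ⟨hij.symm, ?_⟩
          cases u2 <;> cases v2 <;> simp [hij, hij.symm] at hlab ⊢
        · left
          cases u2 <;> cases v2 <;> simp [hij, hij.symm] at hlab ⊢
    rcases hmain with h | h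
    · rw [h, hzero, zero_mul]; exact zero_mem _
    · exact Ideal.mul_mem_right _ _ (minor_mem_J h)
  · refine notMem_P_of_eval (fun z => if z ∈ pairCut i j then 0 else 1)
      (fun z => if z ∈ pairCut i j then 0 else
        if z = (i, false) ∨ z = (j, true) then 0 else 1) ?_ ?_ ?_
    · intro z hz
      simp [hz]
    · intro u v hu hv huv
      have hlab := comp_pairCut hij false hu hv huv
      rw [Bool.not_false] at hlab
      by_cases huz : u = (i, false) ∨ u = (j, true)
      · simp only [hu, hv, if_false, if_pos huz, if_pos (hlab.mp huz)]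
        ring
      · have hvz := fun h => huz (hlab.mpr h)
        simp only [hu, hv, if_false, if_neg huz, if_neg hvz]
        ring
    · have m1 : ∀ b, ((i, b) : Fin n × Bool) ∉ pairCut i j := fun b h => h.1 rfl
      have m2 : ∀ b, ((j, b) : Fin n × Bool) ∉ pairCut i j := fun b h => h.2 rfl
      unfold minor
      simp [m1, m2, hij, hij.symm]

theorem upper_empty (hn : 4 ≤ n) :
    4 ∈ colonDegrees (binomialEdgeIdeal K (crown n)) (primeOf K (crown n) ∅) := by
  classical
  obtain ⟨i1, _, _, _⟩ := exists_ne3 hn ⟨0, by omega⟩ ⟨0, by omega⟩ ⟨0, by omega⟩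
  obtain ⟨i2, h21, _, _⟩ := exists_ne3 hn i1 i1 i1
  obtain ⟨i3, h31, h32, _⟩ := exists_ne3 hn i1 i2 i2
  obtain ⟨i4, h41, h42, h43⟩ := exists_ne3 hn i1 i2 i3
  -- the dominating set
  set a1 : Fin n × Bool := (i1, false) with ha1
  set a2 : Fin n × Bool := (i2, false) with ha2
  set b3 : Fin n × Bool := (i3, true) with hb3
  set b4 : Fin n × Bool := (i4, true) with hb4
  have e13 : (crown n).Adj a1 b3 := ⟨h31.symm, by simp [ha1, hb3]⟩
  have e14 : (crown n).Adj a1 b4 := ⟨h41.symm, by simp [ha1, hb4]⟩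
  have e23 : (crown n).Adj a2 b3 := ⟨h32.symm, by simp [ha2, hb3]⟩
  have e24 : (crown n).Adj a2 b4 := ⟨h42.symm, by simp [ha2, hb4]⟩
  set f : MvPolynomial ((Fin n × Bool) × Fin 2) K :=
    X (a1, 0) * X (a2, 0) * (X (b3, 0) * X (b4, 0)) with hf
  -- products of all paths through the dominating set
  have p1 : ∀ u v d : Fin n × Bool, (d = a1 ∨ d = a2 ∨ d = b3 ∨ d = b4) →
      (crown n).Adj u d → (crown n).Adj d v → minor K u v * f ∈ binomialEdgeIdeal K (crown n) := by
    intro u v d hd h1 h2
    rcases hd with rfl | rfl | rfl | rfl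
    · have e : minor K u v * f =
        (X (a2, 0) * (X (b3, 0) * X (b4, 0))) * (X (a1, 0) * minor K u v) := by rw [hf]; ring
      rw [e]; exact Ideal.mul_mem_left _ _ (path1 0 h1 h2)
    · have e : minor K u v * f =
        (X (a1, 0) * (X (b3, 0) * X (b4, 0))) * (X (a2, 0) * minor K u v) := by rw [hf]; ring
      rw [e]; exact Ideal.mul_mem_left _ _ (path1 0 h1 h2)
    · have e : minor K u v * f =
        (X (a1, 0) * X (a2, 0) * X (b4, 0)) * (X (b3, 0) * minor K u v) := by rw [hf]; ring
      rw [e]; exact Ideal.mul_mem_left _ _ (path1 0 h1 h2)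
    · have e : minor K u v * f =
        (X (a1, 0) * X (a2, 0) * X (b3, 0)) * (X (b4, 0) * minor K u v) := by rw [hf]; ring
      rw [e]; exact Ideal.mul_mem_left _ _ (path1 0 h1 h2)
  have hswap : ∀ u v : Fin n × Bool, minor K u v * f ∈ binomialEdgeIdeal K (crown n) →
      minor K v u * f ∈ binomialEdgeIdeal K (crown n) := by
    intro u v h
    have e : minor K v u * f = -(minor K u v * f) := by unfold minor; ring
    rw [e]; exact neg_mem h
  -- neighbours of a vertex
  have hnbF : ∀ l : Fin n, (crown n).Adj (l, false) b3 ∨ (crown n).Adj (l, false) b4 := by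
    intro l
    by_cases h : l = i3
    · right; exact ⟨by rw [h]; exact h43.symm, by simp [hb4]⟩
    · left; exact ⟨h, by simp [hb3]⟩
  have hnbT : ∀ l : Fin n, (crown n).Adj (l, true) a1 ∨ (crown n).Adj (l, true) a2 := by
    intro l
    by_cases h : l = i1
    · right; exact ⟨by rw [h]; exact h21.symm, by simp [ha2]⟩
    · left; exact ⟨h, by simp [ha1]⟩
  -- path between a vertex on one side and a vertex on the other side
  have pFT : ∀ l m : Fin n,
      minor K (l, false) (m, true) * f ∈ binomialEdgeIdeal K (crown n) := by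
    intro l m
    have main : ∀ d d' : Fin n × Bool, (d = b3 ∨ d = b4) → (d' = a1 ∨ d' = a2) →
        (crown n).Adj (l, false) d → (crown n).Adj (m, true) d' →
        minor K (l, false) (m, true) * f ∈ binomialEdgeIdeal K (crown n) := by
      intro d d' hd hd' h1 h2
      rcases hd with rfl | rfl <;> rcases hd' with rfl | rfl
      · have e : minor K (l, false) (m, true) * f = (X (a2, 0) * X (b4, 0)) *
          (X (b3, 0) * (X (a1, 0) * minor K (l, false) (m, true))) := by rw [hf]; ring
        rw [e]; exact Ideal.mul_mem_left _ _ (path2 0 0 h1 e13.symm h2.symm)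
      · have e : minor K (l, false) (m, true) * f = (X (a1, 0) * X (b4, 0)) *
          (X (b3, 0) * (X (a2, 0) * minor K (l, false) (m, true))) := by rw [hf]; ring
        rw [e]; exact Ideal.mul_mem_left _ _ (path2 0 0 h1 e23.symm h2.symm)
      · have e : minor K (l, false) (m, true) * f = (X (a2, 0) * X (b3, 0)) *
          (X (b4, 0) * (X (a1, 0) * minor K (l, false) (m, true))) := by rw [hf]; ring
        rw [e]; exact Ideal.mul_mem_left _ _ (path2 0 0 h1 e14.symm h2.symm)
      · have e : minor K (l, false) (m, true) * f = (X (a1, 0) * X (b3, 0)) *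
          (X (b4, 0) * (X (a2, 0) * minor K (l, false) (m, true))) := by rw [hf]; ring
        rw [e]; exact Ideal.mul_mem_left _ _ (path2 0 0 h1 e24.symm h2.symm)
    rcases hnbF l with h1 | h1 <;> rcases hnbT m with h2 | h2
    · exact main b3 a1 (Or.inl rfl) (Or.inl rfl) h1 h2
    · exact main b3 a2 (Or.inl rfl) (Or.inr rfl) h1 h2
    · exact main b4 a1 (Or.inr rfl) (Or.inl rfl) h1 h2
    · exact main b4 a2 (Or.inr rfl) (Or.inr rfl) h1 h2
  have pFF : ∀ l m : Fin n,
      minor K (l, false) (m, false) * f ∈ binomialEdgeIdeal K (crown n) := by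
    intro l m
    rcases hnbF l with h1 | h1 <;> rcases hnbF m with h2 | h2
    · exact p1 _ _ b3 (by simp) h1 h2.symm
    · have e : minor K (l, false) (m, false) * f = X (a2, 0) *
        (X (b3, 0) * (X (a1, 0) * (X (b4, 0) * minor K (l, false) (m, false)))) := by
          rw [hf]; ring
      rw [e]; exact Ideal.mul_mem_left _ _ (path3 0 0 0 h1 e13.symm e14 h2.symm)
    · have e : minor K (l, false) (m, false) * f = X (a2, 0) *
        (X (b4, 0) * (X (a1, 0) * (X (b3, 0) * minor K (l, false) (m, false)))) := by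
          rw [hf]; ring
      rw [e]; exact Ideal.mul_mem_left _ _ (path3 0 0 0 h1 e14.symm e13 h2.symm)
    · exact p1 _ _ b4 (by simp) h1 h2.symm
  have pTT : ∀ l m : Fin n,
      minor K (l, true) (m, true) * f ∈ binomialEdgeIdeal K (crown n) := by
    intro l m
    rcases hnbT l with h1 | h1 <;> rcases hnbT m with h2 | h2
    · exact p1 _ _ a1 (by simp) h1 h2.symm
    · have e : minor K (l, true) (m, true) * f = X (b4, 0) *
        (X (a1, 0) * (X (b3, 0) * (X (a2, 0) * minor K (l, true) (m, true)))) := by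
          rw [hf]; ring
      rw [e]; exact Ideal.mul_mem_left _ _ (path3 0 0 0 h1 e13 e23.symm h2.symm)
    · have e : minor K (l, true) (m, true) * f = X (b4, 0) *
        (X (a2, 0) * (X (b3, 0) * (X (a1, 0) * minor K (l, true) (m, true)))) := by
          rw [hf]; ring
      rw [e]; exact Ideal.mul_mem_left _ _ (path3 0 0 0 h1 e23 e13.symm h2.symm)
    · exact p1 _ _ a2 (by simp) h1 h2.symm
  refine ⟨f, ((isHomogeneous_X K _).mul (isHomogeneous_X K _)).mul
    ((isHomogeneous_X K _).mul (isHomogeneous_X K _)), colon_eq ?_ ?_ ?_⟩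
  · intro v hv
    exact absurd hv (Set.notMem_empty v)
  · rintro ⟨u1, u2⟩ ⟨v1, v2⟩ _ _ _
    cases u2 <;> cases v2
    · exact pFF u1 v1
    · exact pFT u1 v1
    · exact hswap _ _ (pFT v1 u1)
    · exact pTT u1 v1
  · refine notMem_P_of_eval (fun _ => 1) (fun _ => 0) ?_ ?_ ?_
    · intro v hv
      exact absurd hv (Set.notMem_empty v)
    · intro u v _ _ _
      ring
    · rw [hf]
      simp

end crown

end Pool.Agent.Lib.MP_354fda_al
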